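import Mathlib

/-!
# Order of vanishing of multi-affine partition functions with pair couplings

`Z c K x y` is the sum over `s ⊆ K` of `exp (∑ i ∈ s, ∑ j ∈ s, c i j)` times the product of the
`y i`, `i ∈ s`, and the `x i`, `i ∈ K \ s`.  `Good c K u b`: some choice of the functionals
`(x i, y i)`, different from `(1, u i)` at no more than `b` sites, makes `Z` nonzero; the least such
`b` is the order of vanishing at `u` of the polynomial `∑ s, exp (..) * ∏ i ∈ s, u i`.
-/

set_option autoImplicit false

namespace Pool.TH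

open Finset

variable {V : Type*} [DecidableEq V]

/-- the quadratic form -/
noncomputable def Q (c : V → V → ℂ) (s : Finset V) : ℂ := ∑ i ∈ s, ∑ j ∈ s, c i j

/-- the partition function -/
noncomputable def Z (c : V → V → ℂ) (K : Finset V) (x y : V → ℂ) : ℂ :=
  ∑ s ∈ K.powerset, Complex.exp (Q c s) * ((∏ i ∈ s, y i) * ∏ i ∈ K \ s, x i)

/-- the nonzero coupling of `i` and `j` -/
noncomputable def w (c : V → V → ℂ) (i j : V) : ℂ := Complex.exp (2 * c i j)

/-- the point seen by the other sites when the sites of `S` are occupied -/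
noncomputable def sh (c : V → V → ℂ) (S : Finset V) (u : V → ℂ) : V → ℂ :=
  fun i => u i * ∏ j ∈ S, w c j i

structure Sym (c : V → V → ℂ) : Prop where
  diag : ∀ i, c i i = 0
  symm : ∀ i j, c i j = c j i

theorem w_ne (c : V → V → ℂ) (i j : V) : w c i j ≠ 0 := Complex.exp_ne_zero _

theorem w_symm {c : V → V → ℂ} (hc : Sym c) (i j : V) : w c i j = w c j i := by
  rw [w, w, hc.symm]

theorem w_diag {c : V → V → ℂ} (hc : Sym c) (i : V) : w c i i = 1 := by
  rw [w, hc.diag]; simp

theorem Q_insert {c : V → V → ℂ} (hc : Sym c) {v : V} {s : Finset V} (hv : v ∉ s) :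
    Q c (insert v s) = Q c s + ∑ j ∈ s, 2 * c v j := by
  rw [Q, sum_insert hv, sum_insert hv, hc.diag]
  have h1 : ∀ i ∈ s, ∑ j ∈ insert v s, c i j = c i v + ∑ j ∈ s, c i j := by
    intro i _
    rw [sum_insert hv]
  rw [sum_congr rfl h1, sum_add_distrib, Q]
  have h2 : ∑ i ∈ s, c i v = ∑ i ∈ s, c v i := sum_congr rfl (fun i _ => hc.symm _ _)
  rw [h2, ← mul_sum]
  ring

theorem Z_insert {c : V → V → ℂ} (hc : Sym c) {v : V} {K : Finset V} (hv : v ∉ K)
    (x y : V → ℂ) :
    Z c (insert v K) x y = x v * Z c K x y + y v * Z c K x (fun i => y i * w c v i) := by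
  rw [Z, sum_powerset_insert hv, Z, Z, mul_sum, mul_sum]
  congr 1
  · refine sum_congr rfl ?_
    intro s hs
    have hvs : v ∉ s := fun h => hv (mem_powerset.1 hs h)
    rw [insert_sdiff_of_notMem _ hvs, prod_insert (fun h => hv (mem_sdiff.1 h).1)]
    ring
  · refine sum_congr rfl ?_
    intro s hs
    have hvs : v ∉ s := fun h => hv (mem_powerset.1 hs h)
    have h1 : insert v K \ insert v s = K \ s := by
      ext i
      simp only [mem_sdiff, mem_insert, not_or]
      constructor
      · rintro ⟨h | h, h1, h2⟩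
        · exact absurd h h1
        · exact ⟨h, h2⟩
      · rintro ⟨h, h1⟩
        refine ⟨Or.inr h, ?_, h1⟩
        rintro rfl
        exact hv h
    rw [h1, prod_insert hvs, Q_insert hc hvs, Complex.exp_add, Complex.exp_sum, prod_mul_distrib]
    simp only [w]
    ring

theorem Z_empty (c : V → V → ℂ) (x y : V → ℂ) : Z c ∅ x y = 1 := by
  simp [Z, Q]

theorem Z_congr (c : V → V → ℂ) {K : Finset V} {x x' y y' : V → ℂ} (hx : ∀ i ∈ K, x i = x' i)
    (hy : ∀ i ∈ K, y i = y' i) : Z c K x y = Z c K x' y' := by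
  rw [Z, Z]
  refine sum_congr rfl ?_
  intro s hs
  rw [prod_congr rfl (fun i hi => hy i (mem_powerset.1 hs hi)),
    prod_congr rfl (fun i hi => hx i (mem_sdiff.1 hi).1)]

/-- linearity at one site -/
theorem Z_site {c : V → V → ℂ} (hc : Sym c) {v : V} {K : Finset V} (hv : v ∈ K) (x y : V → ℂ)
    (a b a' b' α β : ℂ) :
    Z c K (Function.update x v (α * a + β * a')) (Function.update y v (α * b + β * b')) =
      α * Z c K (Function.update x v a) (Function.update y v b) +
      β * Z c K (Function.update x v a') (Function.update y v b') := by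
  obtain ⟨K', hK', rfl⟩ : ∃ K', v ∉ K' ∧ K = insert v K' :=
    ⟨K.erase v, notMem_erase _ _, (insert_erase hv).symm⟩
  have key : ∀ p q : ℂ, Z c (insert v K') (Function.update x v p) (Function.update y v q) =
      p * Z c K' x y + q * Z c K' x (fun i => y i * w c v i) := by
    intro p q
    rw [Z_insert hc hK', Function.update_self, Function.update_self]
    have hne : ∀ i ∈ K', i ≠ v := fun i hi h => hK' (h ▸ hi)
    rw [Z_congr c (x' := x) (y' := y) (fun i hi => Function.update_of_ne (hne i hi) _ _)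
      (fun i hi => Function.update_of_ne (hne i hi) _ _),
      Z_congr c (K := K') (x := Function.update x v p) (x' := x)
        (y := fun i => Function.update y v q i * w c v i) (y' := fun i => y i * w c v i)
        (fun i hi => Function.update_of_ne (hne i hi) _ _)
        (fun i hi => by simp only [Function.update_of_ne (hne i hi)])]
  rw [key, key, key]
  ring

/-- product over uncoupled parts -/
theorem Z_union {c : V → V → ℂ} (hc : Sym c) (K₁ : Finset V) : ∀ (K₂ : Finset V),
    Disjoint K₁ K₂ → (∀ i ∈ K₁, ∀ j ∈ K₂, w c i j = 1) → ∀ x y : V → ℂ,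
    Z c (K₁ ∪ K₂) x y = Z c K₁ x y * Z c K₂ x y := by
  induction K₁ using Finset.induction_on with
  | empty => intro K₂ _ _ x y; simp [Z_empty]
  | insert v K₁ hv ih =>
    intro K₂ hd hw x y
    rw [disjoint_insert_left] at hd
    have hv2 : v ∉ K₁ ∪ K₂ := by
      rw [mem_union]; rintro (h | h)
      · exact hv h
      · exact hd.1 h
    rw [insert_union, Z_insert hc hv2, Z_insert hc hv]
    have hw' : ∀ i ∈ K₁, ∀ j ∈ K₂, w c i j = 1 := fun i hi j hj =>
      hw i (mem_insert_of_mem hi) j hj
    rw [ih K₂ hd.2 hw' x y, ih K₂ hd.2 hw' x (fun i => y i * w c v i)]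
    rw [Z_congr c (K := K₂) (x := x) (x' := x) (y := fun i => y i * w c v i) (y' := y)
      (fun _ _ => rfl) (fun i hi => by rw [hw v (mem_insert_self _ _) i hi, mul_one])]
    ring

/-- sites in a basis state -/
theorem Z_basis {c : V → V → ℂ} (hc : Sym c) (S E : Finset V) (D : Finset V) :
    ∀ (x y : V → ℂ), Disjoint D E →
    (∀ i ∈ D, (i ∈ S → x i = 0 ∧ y i ≠ 0) ∧ (i ∉ S → x i ≠ 0 ∧ y i = 0)) →
    ∃ κ : ℂ, κ ≠ 0 ∧ Z c (D ∪ E) x y = κ * Z c E x (sh c (S ∩ D) y) := by
  induction D using Finset.induction_on with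
  | empty =>
    intro x y _ _
    refine ⟨1, one_ne_zero, ?_⟩
    rw [empty_union, one_mul]
    exact Z_congr c (fun _ _ => rfl) (fun i _ => by simp [sh])
  | insert d D hd ih =>
    intro x y hdis hb
    rw [disjoint_insert_left] at hdis
    have hd2 : d ∉ D ∪ E := by
      rw [mem_union]; rintro (h | h)
      · exact hd h
      · exact hdis.1 h
    rw [insert_union, Z_insert hc hd2]
    by_cases hdS : d ∈ S
    · obtain ⟨h0, h1⟩ := (hb d (mem_insert_self _ _)).1 hdS
      obtain ⟨κ, hκ, h⟩ := ih x (fun i => y i * w c d i) hdis.2 (by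
        intro i hi
        obtain ⟨h2, h3⟩ := hb i (mem_insert_of_mem hi)
        refine ⟨fun hs => ⟨(h2 hs).1, mul_ne_zero (h2 hs).2 (w_ne _ _ _)⟩, fun hs => ?_⟩
        refine ⟨(h3 hs).1, ?_⟩
        rw [(h3 hs).2, zero_mul])
      refine ⟨y d * κ, mul_ne_zero h1 hκ, ?_⟩
      rw [h0, zero_mul, zero_add, h, mul_assoc]
      congr 2
      refine Z_congr c (fun _ _ => rfl) (fun i _ => ?_)
      rw [inter_insert_of_mem hdS, sh, sh, prod_insert (fun hh => hd (mem_inter.1 hh).2)]
      ring
    · obtain ⟨h0, h1⟩ := (hb d (mem_insert_self _ _)).2 hdS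
      obtain ⟨κ, hκ, h⟩ := ih x y hdis.2 (fun i hi => hb i (mem_insert_of_mem hi))
      refine ⟨x d * κ, mul_ne_zero h0 hκ, ?_⟩
      rw [h1, zero_mul, add_zero, h, mul_assoc, inter_insert_of_notMem hdS]

/-- the order of vanishing at `u` is at most `b` -/
def Good (c : V → V → ℂ) (K : Finset V) (u : V → ℂ) (b : ℕ) : Prop :=
  ∃ T : Finset V, T ⊆ K ∧ T.card ≤ b ∧ ∃ x y : V → ℂ, (∀ i ∈ K, i ∉ T → x i = 1 ∧ y i = u i) ∧
    Z c K x y ≠ 0

theorem Good.mono {c : V → V → ℂ} {K : Finset V} {u : V → ℂ} {b b' : ℕ} (h : Good c K u b)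
    (hb : b ≤ b') : Good c K u b' := by
  obtain ⟨T, hT, hc, r⟩ := h
  exact ⟨T, hT, hc.trans hb, r⟩

theorem good_card {c : V → V → ℂ} (hc : Sym c) (K : Finset V) (u : V → ℂ) :
    Good c K u K.card := by
  refine ⟨K, Subset.rfl, le_rfl, fun _ => 1, fun _ => 0, fun i hi h => absurd hi h, ?_⟩
  obtain ⟨κ, hκ, h⟩ := Z_basis hc ∅ ∅ K (fun _ => 1) (fun _ => 0) (disjoint_empty_right _)
    (fun i _ => ⟨fun h => absurd h (notMem_empty _), fun _ => ⟨one_ne_zero, rfl⟩⟩)
  rw [union_empty] at h
  rw [h, Z_empty, mul_one]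
  exact hκ

theorem good_congr {c : V → V → ℂ} {K : Finset V} {u u' : V → ℂ} {b : ℕ}
    (h : ∀ i ∈ K, u i = u' i) (hg : Good c K u b) : Good c K u' b := by
  obtain ⟨T, hT, hc, x, y, hxy, hZ⟩ := hg
  exact ⟨T, hT, hc, x, y, fun i hi hiT => ⟨(hxy i hi hiT).1, by rw [← h i hi, (hxy i hi hiT).2]⟩,
    hZ⟩

/-- the order of vanishing -/
noncomputable def mu (c : V → V → ℂ) (K : Finset V) (u : V → ℂ) : ℕ := sInf {b | Good c K u b}

theorem good_mu {c : V → V → ℂ} (hc : Sym c) (K : Finset V) (u : V → ℂ) :
    Good c K u (mu c K u) := Nat.sInf_mem (s := {b | Good c K u b}) ⟨_, good_card hc K u⟩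

theorem mu_le {c : V → V → ℂ} {K : Finset V} {u : V → ℂ} {b : ℕ} (h : Good c K u b) :
    mu c K u ≤ b := Nat.sInf_le h

theorem good_of_mu_le {c : V → V → ℂ} (hc : Sym c) {K : Finset V} {u : V → ℂ} {b : ℕ}
    (h : mu c K u ≤ b) : Good c K u b := (good_mu hc K u).mono h

theorem mu_union {c : V → V → ℂ} (hc : Sym c) {K₁ K₂ : Finset V} (hd : Disjoint K₁ K₂)
    (hw : ∀ i ∈ K₁, ∀ j ∈ K₂, w c i j = 1) (u : V → ℂ) :
    mu c (K₁ ∪ K₂) u ≤ mu c K₁ u + mu c K₂ u := by
  classical
  obtain ⟨T₁, hT₁, hc₁, x₁, y₁, h₁, hZ₁⟩ := good_mu hc K₁ u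
  obtain ⟨T₂, hT₂, hc₂, x₂, y₂, h₂, hZ₂⟩ := good_mu hc K₂ u
  apply mu_le
  refine ⟨T₁ ∪ T₂, union_subset_union hT₁ hT₂, (card_union_le _ _).trans (add_le_add hc₁ hc₂),
    fun i => if i ∈ K₁ then x₁ i else x₂ i, fun i => if i ∈ K₁ then y₁ i else y₂ i, ?_, ?_⟩
  · intro i hi hiT
    rw [mem_union, not_or] at hiT
    by_cases h : i ∈ K₁
    · simp only [h, if_true]
      exact h₁ i h hiT.1
    · simp only [h, if_false]
      exact h₂ i ((mem_union.1 hi).resolve_left h) hiT.2
  · rw [Z_union hc K₁ K₂ hd hw]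
    refine mul_ne_zero ?_ ?_
    · rw [Z_congr c (x' := x₁) (y' := y₁) (fun i hi => by simp [hi]) (fun i hi => by simp [hi])]
      exact hZ₁
    · have hn : ∀ i ∈ K₂, i ∉ K₁ := fun i hi h => (disjoint_left.1 hd h) hi
      rw [Z_congr c (x' := x₂) (y' := y₂) (fun i hi => by simp [hn i hi])
        (fun i hi => by simp [hn i hi])]
      exact hZ₂

/-- put the sites of `D` in a basis state -/
theorem good_lift {c : V → V → ℂ} (hc : Sym c) {D E S : Finset V} (hd : Disjoint D E)
    (hS : S ⊆ D) {u : V → ℂ} {b : ℕ} (h : Good c E (sh c S u) b) :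
    ∃ T : Finset V, T ⊆ E ∧ T.card ≤ b ∧ ∃ x y : V → ℂ, (∀ i ∈ E, i ∉ T → x i = 1 ∧ y i = u i) ∧
      Z c (D ∪ E) x y ≠ 0 := by
  classical
  obtain ⟨T, hT, hcard, x, y, hxy, hZ⟩ := h
  have hDE : ∀ i ∈ E, i ∉ D := fun i hi h => (disjoint_left.1 hd h) hi
  have hP : ∀ i, (∏ j ∈ S, w c j i) ≠ 0 := fun i => prod_ne_zero_iff.2 (fun j _ => w_ne _ _ _)
  refine ⟨T, hT, hcard, fun i => if i ∈ D then (if i ∈ S then 0 else 1) else x i,
    fun i => if i ∈ D then (if i ∈ S then 1 else 0) else y i * (∏ j ∈ S, w c j i)⁻¹, ?_, ?_⟩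
  · intro i hi hiT
    simp only [hDE i hi, if_false]
    refine ⟨(hxy i hi hiT).1, ?_⟩
    rw [(hxy i hi hiT).2, sh, mul_assoc, mul_inv_cancel₀ (hP i), mul_one]
  · obtain ⟨κ, hκ, h⟩ := Z_basis hc S E D
      (fun i => if i ∈ D then (if i ∈ S then 0 else 1) else x i)
      (fun i => if i ∈ D then (if i ∈ S then 1 else 0) else y i * (∏ j ∈ S, w c j i)⁻¹) hd
      (fun i hi => ⟨fun hs => by simp [hi, hs], fun hs => by simp [hi, hs]⟩)
    rw [h]
    refine mul_ne_zero hκ ?_
    rw [Z_congr c (x' := x) (y' := y) (fun i hi => by simp [hDE i hi]) (fun i hi => ?_)]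
    · exact hZ
    · rw [inter_eq_left.2 hS, sh]
      simp only [hDE i hi, if_false]
      rw [mul_assoc, inv_mul_cancel₀ (hP i), mul_one]

/-- replace the functionals at the sites where `u ≠ u'` by those of `u` or of `u'` -/
theorem dual_basis {c : V → V → ℂ} (hc : Sym c) {K : Finset V} {u u' : V → ℂ} (D : Finset V) :
    D ⊆ K → (∀ i ∈ D, u i ≠ u' i) → ∀ x y : V → ℂ, Z c K x y ≠ 0 →
    ∃ D₁ : Finset V, D₁ ⊆ D ∧ ∃ x' y' : V → ℂ, (∀ i ∉ D, x' i = x i ∧ y' i = y i) ∧
      (∀ i ∈ D₁, x' i = 1 ∧ y' i = u i) ∧ (∀ i ∈ D \ D₁, x' i = 1 ∧ y' i = u' i) ∧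
      Z c K x' y' ≠ 0 := by
  induction D using Finset.induction_on with
  | empty =>
    intro _ _ x y h
    exact ⟨∅, Subset.rfl, x, y, fun _ _ => ⟨rfl, rfl⟩, fun i hi => absurd hi (notMem_empty _),
      fun i hi => by simp at hi, h⟩
  | insert d D hd ih =>
    intro hDK hne x y hZ
    have hdK : d ∈ K := hDK (mem_insert_self _ _)
    have hud : u d ≠ u' d := hne d (mem_insert_self _ _)
    have hud' : u d - u' d ≠ 0 := sub_ne_zero.2 hud
    -- write the functional at `d` as a combination
    set β : ℂ := (x d * u d - y d) / (u d - u' d) with hβ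
    set α : ℂ := x d - β with hα
    have h1 : x d = α * 1 + β * 1 := by rw [hα]; ring
    have h2 : y d = α * u d + β * u' d := by
      rw [hα, hβ]; field_simp; ring
    have h3 : Z c K x y = α * Z c K (Function.update x d 1) (Function.update y d (u d)) +
        β * Z c K (Function.update x d 1) (Function.update y d (u' d)) := by
      rw [← Z_site hc hdK x y 1 (u d) 1 (u' d) α β, ← h1, ← h2, Function.update_eq_self,
        Function.update_eq_self]
    rw [h3] at hZ
    have h4 : Z c K (Function.update x d 1) (Function.update y d (u d)) ≠ 0 ∨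
        Z c K (Function.update x d 1) (Function.update y d (u' d)) ≠ 0 := by
      by_contra hcon
      push Not at hcon
      rw [hcon.1, hcon.2] at hZ
      simp at hZ
    have hDK' : D ⊆ K := (subset_insert _ _).trans hDK
    have hne' : ∀ i ∈ D, u i ≠ u' i := fun i hi => hne i (mem_insert_of_mem hi)
    rcases h4 with h4 | h4
    · obtain ⟨D₁, hD₁, x', y', ho, ha, hb, hz⟩ := ih hDK' hne' _ _ h4
      have hod := ho d hd
      rw [Function.update_self, Function.update_self] at hod
      refine ⟨insert d D₁, insert_subset_insert _ hD₁, x', y', ?_, ?_, ?_, hz⟩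
      · intro i hi
        rw [mem_insert, not_or] at hi
        have := ho i hi.2
        rw [Function.update_of_ne hi.1, Function.update_of_ne hi.1] at this
        exact this
      · intro i hi
        rcases mem_insert.1 hi with rfl | hi
        · exact hod
        · exact ha i hi
      · intro i hi
        rw [mem_sdiff, mem_insert, mem_insert, not_or] at hi
        exact hb i (mem_sdiff.2 ⟨hi.1.resolve_left hi.2.1, hi.2.2⟩)
    · obtain ⟨D₁, hD₁, x', y', ho, ha, hb, hz⟩ := ih hDK' hne' _ _ h4
      have hod := ho d hd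
      rw [Function.update_self, Function.update_self] at hod
      refine ⟨D₁, hD₁.trans (subset_insert _ _), x', y', ?_, ha, ?_, hz⟩
      · intro i hi
        rw [mem_insert, not_or] at hi
        have := ho i hi.2
        rw [Function.update_of_ne hi.1, Function.update_of_ne hi.1] at this
        exact this
      · intro i hi
        rw [mem_sdiff, mem_insert] at hi
        rcases hi.1 with rfl | h
        · exact hod
        · exact hb i (mem_sdiff.2 ⟨h, hi.2⟩)

/-! ### Connected sets -/

/-- no proper nonempty subset is uncoupled from its complement -/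
def Conn (c : V → V → ℂ) (K : Finset V) : Prop :=
  K.Nonempty ∧ ∀ A : Finset V, A ⊆ K → A.Nonempty → A ≠ K → ∃ i ∈ A, ∃ j ∈ K \ A, w c i j ≠ 1

/-- every nonempty set contains a connected set which is uncoupled from the rest -/
theorem exists_comp (c : V → V → ℂ) (E : Finset V) (hE : E.Nonempty) :
    ∃ K : Finset V, K ⊆ E ∧ Conn c K ∧ ∀ i ∈ K, ∀ j ∈ E \ K, w c i j = 1 := by
  classical
  -- closed subsets
  set C : Finset (Finset V) := E.powerset.filter
    (fun A => A.Nonempty ∧ ∀ i ∈ A, ∀ j ∈ E \ A, w c i j = 1) with hC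
  have hEC : E ∈ C := by
    rw [hC, mem_filter]
    refine ⟨mem_powerset_self _, hE, ?_⟩
    intro i _ j hj
    simp at hj
  obtain ⟨K, hKC, hmin⟩ := C.exists_min_image card ⟨E, hEC⟩
  rw [hC, mem_filter, mem_powerset] at hKC
  refine ⟨K, hKC.1, ⟨hKC.2.1, ?_⟩, hKC.2.2⟩
  intro A hA hAn hAK
  by_contra hcon
  push Not at hcon
  have hAC : A ∈ C := by
    rw [hC, mem_filter, mem_powerset]
    refine ⟨hA.trans hKC.1, hAn, ?_⟩
    intro i hi j hj
    by_cases hjK : j ∈ K
    · exact hcon i hi j (mem_sdiff.2 ⟨hjK, (mem_sdiff.1 hj).2⟩)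
    · exact hKC.2.2 i (hA hi) j (mem_sdiff.2 ⟨(mem_sdiff.1 hj).1, hjK⟩)
  have h1 := hmin A hAC
  have h2 : A.card < K.card := card_lt_card (hA.ssubset_of_ne hAK)
  omega

/-- the sum lemma for sets of size at most `n` -/
def LS (c : V → V → ℂ) (n : ℕ) : Prop := ∀ K : Finset V, K.card ≤ n → Conn c K →
  ∀ u u' : V → ℂ, (∀ i ∈ K, u i ≠ 0) → (∀ i ∈ K, u' i ≠ 0) → (∃ k ∈ K, u k ≠ u' k) →
  mu c K u + mu c K u' ≤ K.card

theorem sh_ne {c : V → V → ℂ} {u : V → ℂ} {i : V} (h : u i ≠ 0) (S : Finset V) :
    sh c S u i ≠ 0 := mul_ne_zero h (prod_ne_zero_iff.2 (fun _ _ => w_ne _ _ _))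

/-- the average lemma -/
theorem avg {c : V → V → ℂ} (hc : Sym c) {n : ℕ} (hLS : LS c n) (D : Finset V) (u : V → ℂ) :
    ∀ (m : ℕ) (E : Finset V), E.card = m → m ≤ n → Disjoint D E →
    (∀ A : Finset V, A ⊆ E → A.Nonempty → (∀ i ∈ A, ∀ j ∈ E \ A, w c i j = 1) →
      ∃ i ∈ A, ∃ d ∈ D, w c d i ≠ 1) → (∀ i ∈ E, u i ≠ 0) →
    2 * ∑ S ∈ D.powerset, mu c E (sh c S u) ≤ 2 ^ D.card * E.card := by
  intro m
  induction m using Nat.strong_induction_on with
  | _ m ih =>
    intro E hEm hmn hdis hcl hu
    rcases E.eq_empty_or_nonempty with rfl | hE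
    · have h0 : ∀ S ∈ D.powerset, mu c ∅ (sh c S u) = 0 := by
        intro S _
        have := mu_le (good_card hc ∅ (sh c S u))
        simpa using this
      rw [sum_congr rfl h0]
      simp
    · obtain ⟨K, hKE, hK, hKcl⟩ := exists_comp c E hE
      obtain ⟨k, hkK, d, hdD, hkd⟩ := hcl K hKE hK.1 hKcl
      have hKcard : K.card ≤ n := (card_le_card hKE).trans (hEm ▸ hmn)
      -- the rest
      have hrest : 2 * ∑ S ∈ D.powerset, mu c (E \ K) (sh c S u) ≤ 2 ^ D.card * (E \ K).card := by
        refine ih (E \ K).card ?_ (E \ K) rfl ?_ ?_ ?_ ?_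
        · rw [← hEm]
          refine card_lt_card ?_
          refine sdiff_ssubset hKE hK.1
        · exact (card_le_card sdiff_subset).trans (hEm ▸ hmn)
        · exact hdis.mono_right sdiff_subset
        · intro A hA hAn hAcl
          refine hcl A (hA.trans sdiff_subset) hAn ?_
          intro i hi j hj
          by_cases hjK : j ∈ K
          · rw [w_symm hc]
            exact hKcl j hjK i (hA hi)
          · exact hAcl i hi j (mem_sdiff.2 ⟨mem_sdiff.2 ⟨(mem_sdiff.1 hj).1, hjK⟩,
              (mem_sdiff.1 hj).2⟩)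
        · intro i hi
          exact hu i (mem_sdiff.1 hi).1
      -- the component
      have hcomp : 2 * ∑ S ∈ D.powerset, mu c K (sh c S u) ≤ 2 ^ D.card * K.card := by
        obtain ⟨D', hD', rfl⟩ : ∃ D', d ∉ D' ∧ D = insert d D' :=
          ⟨D.erase d, notMem_erase _ _, (insert_erase hdD).symm⟩
        rw [sum_powerset_insert hD', ← sum_add_distrib, card_insert_of_notMem hD', pow_succ]
        have h1 : ∀ S ∈ D'.powerset,
            mu c K (sh c S u) + mu c K (sh c (insert d S) u) ≤ K.card := by
          intro S hS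
          have hdS : d ∉ S := fun h => hD' (mem_powerset.1 hS h)
          refine hLS K hKcard hK _ _ (fun i hi => sh_ne (hu i (hKE hi)) _)
            (fun i hi => sh_ne (hu i (hKE hi)) _) ⟨k, hkK, ?_⟩
          rw [sh, sh, prod_insert hdS]
          intro h
          have h2 : u k * ∏ j ∈ S, w c j k ≠ 0 := sh_ne (hu k (hKE hkK)) S
          apply hkd
          have h3 : (u k * ∏ j ∈ S, w c j k) * 1 = (u k * ∏ j ∈ S, w c j k) * w c d k := by
            linear_combination h
          exact (mul_left_cancel₀ h2 h3).symm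
        have h2 := sum_le_sum h1
        rw [sum_const, card_powerset, smul_eq_mul] at h2
        calc 2 * ∑ S ∈ D'.powerset, (mu c K (sh c S u) + mu c K (sh c (insert d S) u))
            ≤ 2 * (2 ^ D'.card * K.card) := Nat.mul_le_mul_left _ h2
          _ = _ := by ring
      have hsum : ∀ S ∈ D.powerset, mu c E (sh c S u) ≤
          mu c K (sh c S u) + mu c (E \ K) (sh c S u) := by
        intro S _
        have := mu_union hc (K₁ := K) (K₂ := E \ K) disjoint_sdiff hKcl (sh c S u)
        rwa [union_sdiff_of_subset hKE] at this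
      have h5 := sum_le_sum hsum
      rw [sum_add_distrib] at h5
      have h6 : K.card + (E \ K).card = E.card := by
        rw [card_sdiff_of_subset hKE]
        have := card_le_card hKE
        omega
      calc 2 * ∑ S ∈ D.powerset, mu c E (sh c S u)
          ≤ 2 * (∑ S ∈ D.powerset, mu c K (sh c S u) +
              ∑ S ∈ D.powerset, mu c (E \ K) (sh c S u)) := Nat.mul_le_mul_left _ h5
        _ ≤ 2 ^ D.card * K.card + 2 ^ D.card * (E \ K).card := by rw [mul_add]; omega
        _ = _ := by rw [← mul_add, h6]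

/-- some state of `D` is at most as bad as the average -/
theorem exists_state {c : V → V → ℂ} (hc : Sym c) {n : ℕ} (hLS : LS c n) (D : Finset V)
    (u : V → ℂ) (E : Finset V) (hn : E.card ≤ n) (hdis : Disjoint D E)
    (hcl : ∀ A : Finset V, A ⊆ E → A.Nonempty → (∀ i ∈ A, ∀ j ∈ E \ A, w c i j = 1) →
      ∃ i ∈ A, ∃ d ∈ D, w c d i ≠ 1) (hu : ∀ i ∈ E, u i ≠ 0) :
    ∃ S, S ⊆ D ∧ 2 * mu c E (sh c S u) ≤ E.card := by
  by_contra hcon
  push Not at hcon
  have h1 := avg hc hLS D u E.card E rfl hn hdis hcl hu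
  have h2 : ∑ S ∈ D.powerset, E.card < ∑ S ∈ D.powerset, 2 * mu c E (sh c S u) :=
    sum_lt_sum_of_nonempty ⟨∅, empty_mem_powerset _⟩ (fun S hS => hcon S (mem_powerset.1 hS))
  rw [sum_const, card_powerset, smul_eq_mul, ← mul_sum] at h2
  omega

theorem ls_all {c : V → V → ℂ} (hc : Sym c) : ∀ n, LS c n := by
  intro n
  induction n with
  | zero =>
    intro K hK hconn
    have : K.card = 0 := by omega
    rw [card_eq_zero] at this
    rw [this] at hconn
    exact absurd hconn.1 (by simp)
  | succ n ih =>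
    intro K hK hconn u u' hu hu' hdiff
    classical
    set D : Finset V := K.filter (fun i => u i ≠ u' i) with hD
    set E : Finset V := K \ D with hE
    have hDn : D.Nonempty := by
      obtain ⟨k, hk, hne⟩ := hdiff
      exact ⟨k, mem_filter.2 ⟨hk, hne⟩⟩
    have hDK : D ⊆ K := filter_subset _ _
    have hDE : D ∪ E = K := by rw [hE]; exact union_sdiff_of_subset hDK
    have hcard : D.card + E.card = K.card := by
      rw [hE, card_sdiff_of_subset hDK]
      have := card_le_card hDK
      omega
    have hDpos : 0 < D.card := card_pos.2 hDn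
    have hdis : Disjoint D E := disjoint_sdiff
    have hEeq : ∀ i ∈ E, u i = u' i := by
      intro i hi
      rw [hE, mem_sdiff, hD, mem_filter] at hi
      by_contra h
      exact hi.2 ⟨hi.1, h⟩
    obtain ⟨S, hS, hmu⟩ := exists_state hc ih D u E (by omega) hdis (by
      intro A hA hAn hAcl
      have hAK : A ⊆ K := hA.trans sdiff_subset
      have hne : A ≠ K := by
        rintro rfl
        obtain ⟨d, hd⟩ := hDn
        exact (mem_sdiff.1 (hA (hDK hd))).2 hd
      obtain ⟨i, hi, j, hj, hij⟩ := hconn.2 A hAK hAn hne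
      refine ⟨i, hi, j, ?_, ?_⟩
      · by_contra hjD
        exact hij (hAcl i hi j (mem_sdiff.2 ⟨mem_sdiff.2 ⟨(mem_sdiff.1 hj).1, hjD⟩,
          (mem_sdiff.1 hj).2⟩))
      · rw [w_symm hc]
        exact hij) (fun i hi => hu i (mem_sdiff.1 hi).1)
    obtain ⟨T, hT, hTc, x, y, hxy, hZ⟩ := good_lift hc hdis hS (good_mu hc E (sh c S u))
    rw [hDE] at hZ
    obtain ⟨D₁, hD₁, x', y', ho, ha, hb, hz⟩ := dual_basis hc D hDK
      (fun i hi => (mem_filter.1 hi).2) x y hZ
    have hg : Good c K u ((D \ D₁).card + T.card) := by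
      refine ⟨(D \ D₁) ∪ T, union_subset (sdiff_subset.trans hDK) (hT.trans sdiff_subset),
        card_union_le _ _, x', y', ?_, hz⟩
      intro i hi hiT
      rw [mem_union, not_or, mem_sdiff] at hiT
      by_cases hiD : i ∈ D
      · have : i ∈ D₁ := by
          by_contra h
          exact hiT.1 ⟨hiD, h⟩
        exact ha i this
      · have hiE : i ∈ E := mem_sdiff.2 ⟨hi, hiD⟩
        obtain ⟨h1, h2⟩ := ho i hiD
        obtain ⟨h3, h4⟩ := hxy i hiE hiT.2
        exact ⟨h1.trans h3, h2.trans h4⟩
    have hg' : Good c K u' (D₁.card + T.card) := by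
      refine ⟨D₁ ∪ T, union_subset (hD₁.trans hDK) (hT.trans sdiff_subset),
        card_union_le _ _, x', y', ?_, hz⟩
      intro i hi hiT
      rw [mem_union, not_or] at hiT
      by_cases hiD : i ∈ D
      · exact hb i (mem_sdiff.2 ⟨hiD, hiT.1⟩)
      · have hiE : i ∈ E := mem_sdiff.2 ⟨hi, hiD⟩
        obtain ⟨h1, h2⟩ := ho i hiD
        obtain ⟨h3, h4⟩ := hxy i hiE hiT.2
        exact ⟨h1.trans h3, (h2.trans h4).trans (hEeq i hiE)⟩
    have h1 := mu_le hg
    have h2 := mu_le hg'
    have h3 : D₁.card + (D \ D₁).card = D.card := by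
      rw [card_sdiff_of_subset hD₁]
      have := card_le_card hD₁
      omega
    omega

/-- the main bound for connected sets -/
theorem mu_conn {c : V → V → ℂ} (hc : Sym c) {K : Finset V} (hK : Conn c K) {u : V → ℂ}
    (hu : ∀ i ∈ K, u i ≠ 0) : 2 * mu c K u ≤ K.card + 1 := by
  classical
  obtain ⟨v, hv⟩ := hK.1
  set E : Finset V := K.erase v with hE
  have hdis : Disjoint ({v} : Finset V) E := by
    rw [disjoint_singleton_left]
    exact notMem_erase _ _
  have hvE : ({v} : Finset V) ∪ E = K := by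
    rw [hE, ← insert_eq]
    exact insert_erase hv
  have hcard : E.card + 1 = K.card := card_erase_add_one hv
  obtain ⟨S, hS, hmu⟩ := exists_state hc (ls_all hc E.card) {v} u E le_rfl hdis (by
    intro A hA hAn hAcl
    have hAK : A ⊆ K := hA.trans (erase_subset _ _)
    have hne : A ≠ K := by
      rintro rfl
      exact notMem_erase _ _ (hA hv)
    obtain ⟨i, hi, j, hj, hij⟩ := hK.2 A hAK hAn hne
    refine ⟨i, hi, j, ?_, ?_⟩
    · rw [mem_singleton]
      by_contra hjv
      exact hij (hAcl i hi j (mem_sdiff.2 ⟨mem_erase.2 ⟨hjv, (mem_sdiff.1 hj).1⟩,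
        (mem_sdiff.1 hj).2⟩))
    · rw [w_symm hc]
      exact hij) (fun i hi => hu i (mem_of_mem_erase hi))
  obtain ⟨T, hT, hTc, x, y, hxy, hZ⟩ := good_lift hc hdis hS (good_mu hc E (sh c S u))
  rw [hvE] at hZ
  have hg : Good c K u (T.card + 1) := by
    refine ⟨insert v T, insert_subset hv (hT.trans (erase_subset _ _)), card_insert_le _ _,
      x, y, ?_, hZ⟩
    intro i hi hiT
    rw [mem_insert, not_or] at hiT
    exact hxy i (mem_erase.2 ⟨hiT.1, hi⟩) hiT.2
  have h1 := mu_le hg
  omega

/-! ### Matchings -/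

/-- `p` is an involution matching coupled sites -/
structure Match (c : V → V → ℂ) (p : V → V) : Prop where
  inv : ∀ i, p (p i) = i
  adj : ∀ i, p i ≠ i → w c i (p i) ≠ 1

/-- the number of sites of `A` which are not matched inside `A` -/
def ex (p : V → V) (A : Finset V) : ℕ := (A.filter (fun i => p i = i ∨ p i ∉ A)).card

theorem even_of_inv (p : V → V) (hp : ∀ i, p (p i) = i) : ∀ (n : ℕ) (A : Finset V), A.card = n →
    (∀ i ∈ A, p i ≠ i ∧ p i ∈ A) → Even A.card := by
  intro n
  induction n using Nat.strong_induction_on with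
  | _ n ih =>
    intro A hA hpA
    rcases A.eq_empty_or_nonempty with rfl | ⟨a, ha⟩
    · simp
    · have h1 := hpA a ha
      set B := (A.erase a).erase (p a) with hB
      have hpa : p a ∈ A.erase a := mem_erase.2 ⟨h1.1, h1.2⟩
      have hcard1 : (A.erase a).card + 1 = A.card := card_erase_add_one ha
      have hcard2 : B.card + 1 = (A.erase a).card := card_erase_add_one hpa
      have h2 := ih B.card (by omega) B rfl (by
        intro i hi
        rw [hB, mem_erase, mem_erase] at hi
        refine ⟨(hpA i hi.2.2).1, ?_⟩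
        rw [hB, mem_erase, mem_erase]
        refine ⟨?_, ?_, (hpA i hi.2.2).2⟩
        · intro h
          apply hi.2.1
          rw [← hp i, h, hp a]
        · intro h
          apply hi.1
          rw [← hp i, h])
      have h3 : A.card = B.card + 2 := by omega
      rw [h3]
      exact h2.add (by decide)

theorem mu_match {c : V → V → ℂ} (hc : Sym c) {p : V → V} (hp : Match c p) {u : V → ℂ} :
    ∀ (n : ℕ) (A : Finset V), A.card = n → (∀ i ∈ A, u i ≠ 0) →
    2 * mu c A u ≤ A.card + ex p A := by
  classical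
  intro n
  induction n using Nat.strong_induction_on with
  | _ n ih =>
    intro A hA hu
    rcases A.eq_empty_or_nonempty with rfl | hAn
    · have := mu_le (good_card hc ∅ u)
      rw [card_empty] at this
      omega
    · obtain ⟨K, hKA, hK, hKcl⟩ := exists_comp c A hAn
      have hcard : K.card + (A \ K).card = A.card := by
        rw [card_sdiff_of_subset hKA]
        have := card_le_card hKA
        omega
      have hpos : 0 < K.card := card_pos.2 hK.1
      have h1 := ih (A \ K).card (by omega) (A \ K) rfl (fun i hi => hu i (mem_sdiff.1 hi).1)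
      have h2 := mu_conn hc hK (fun i hi => hu i (hKA hi))
      have h3 := mu_union hc (K₁ := K) (K₂ := A \ K) disjoint_sdiff hKcl u
      rw [union_sdiff_of_subset hKA] at h3
      -- the number of unmatched sites is additive
      have h4 : ex p K + ex p (A \ K) = ex p A := by
        have hdisj : Disjoint (K.filter (fun i => p i = i ∨ p i ∉ K))
            ((A \ K).filter (fun i => p i = i ∨ p i ∉ A \ K)) :=
          (disjoint_sdiff (s := K) (t := A)).mono (filter_subset _ _) (filter_subset _ _)
        rw [ex, ex, ex, ← card_union_of_disjoint hdisj]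
        congr 1
        ext i
        simp only [mem_union, mem_filter, mem_sdiff]
        constructor
        · rintro (⟨hi, h⟩ | ⟨⟨hi, hiK⟩, h⟩)
          · refine ⟨hKA hi, ?_⟩
            rcases h with h | h
            · exact Or.inl h
            · right
              intro hpA
              by_cases hpi : p i = i
              · exact h (by rw [hpi]; exact hi)
              · exact hp.adj i hpi (hKcl i hi (p i) (mem_sdiff.2 ⟨hpA, h⟩))
          · refine ⟨hi, ?_⟩
            rcases h with h | h
            · exact Or.inl h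
            · by_cases hpi : p i = i
              · exact Or.inl hpi
              · right
                intro hpA
                have hpK : p i ∈ K := by
                  by_contra hh
                  exact h ⟨hpA, hh⟩
                have := hKcl (p i) hpK i (mem_sdiff.2 ⟨hi, hiK⟩)
                rw [w_symm hc] at this
                exact hp.adj i hpi this
        · rintro ⟨hi, h⟩
          by_cases hiK : i ∈ K
          · left
            refine ⟨hiK, ?_⟩
            rcases h with h | h
            · exact Or.inl h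
            · exact Or.inr (fun hh => h (hKA hh))
          · right
            refine ⟨⟨hi, hiK⟩, ?_⟩
            rcases h with h | h
            · exact Or.inl h
            · exact Or.inr (fun hh => h hh.1)
      have h5 : K.card + 1 ≤ K.card + ex p K ∨ Even K.card := by
        by_cases h : ex p K = 0
        · right
          rw [ex, card_eq_zero, filter_eq_empty_iff] at h
          refine even_of_inv p hp.inv K.card K rfl ?_
          intro i hi
          have := h hi
          push Not at this
          exact this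
        · left
          omega
      rcases h5 with h5 | h5
      · omega
      · obtain ⟨k, hk⟩ := h5
        have h6 : mu c K u ≤ k := by omega
        omega

/-- the final combinatorial statement -/
theorem comb [Fintype V] {c : V → V → ℂ} (hc : Sym c) {p : V → V} (hp : Match c p) (u : V → ℂ) :
    ∃ T : Finset V, 2 * T.card ≤ Fintype.card V + (univ.filter (fun i => p i = i)).card ∧
      (∀ i ∈ T, u i ≠ 0) ∧ ∃ x y : V → ℂ, (∀ i, i ∉ T → x i = 1 ∧ y i = u i) ∧
      Z c univ x y ≠ 0 := by
  classical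
  set A : Finset V := univ.filter (fun i => u i ≠ 0) with hA
  set F : Finset V := univ \ A with hF
  have h1 := mu_match hc hp A.card A rfl (u := u) (fun i hi => (mem_filter.1 hi).2)
  obtain ⟨T, hT, hTc, x, y, hxy, hZ⟩ := good_mu hc A u
  have hFA : F ∪ A = univ := by rw [hF]; exact sdiff_union_of_subset (subset_univ _)
  have hdis : Disjoint F A := sdiff_disjoint
  have hFn : ∀ i, i ∉ A ↔ u i = 0 := by
    intro i
    rw [hA, mem_filter]
    simp
  refine ⟨T, ?_, fun i hi => (mem_filter.1 (hT hi)).2, fun i => if i ∈ A then x i else 1,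
    fun i => if i ∈ A then y i else 0, ?_, ?_⟩
  · have hcard : F.card + A.card = Fintype.card V := by
      rw [← card_union_of_disjoint hdis, hFA, card_univ]
    -- unmatched sites of `A`: unmatched, or matched with a site of `F`
    have h2 : ex p A ≤ (univ.filter (fun i => p i = i)).card + F.card := by
      rw [ex]
      have h3 : A.filter (fun i => p i = i ∨ p i ∉ A) ⊆
          (univ.filter (fun i => p i = i)) ∪ F.image p := by
        intro i hi
        rw [mem_filter] at hi
        rw [mem_union, mem_filter, mem_image]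
        rcases hi.2 with h | h
        · exact Or.inl ⟨mem_univ _, h⟩
        · right
          refine ⟨p i, ?_, hp.inv i⟩
          rw [hF, mem_sdiff]
          exact ⟨mem_univ _, h⟩
      refine (card_le_card h3).trans ((card_union_le _ _).trans ?_)
      exact Nat.add_le_add_left card_image_le _
    omega
  · intro i hiT
    by_cases hiA : i ∈ A
    · simp only [hiA, if_true]
      exact hxy i hiA hiT
    · simp only [hiA, if_false]
      exact ⟨trivial, ((hFn i).1 hiA).symm⟩
  · obtain ⟨κ, hκ, h⟩ := Z_basis hc ∅ A F (fun i => if i ∈ A then x i else 1)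
      (fun i => if i ∈ A then y i else 0) hdis (by
        intro i hi
        have hiA : i ∉ A := (mem_sdiff.1 hi).2
        exact ⟨fun h => absurd h (notMem_empty _), fun _ => by simp [hiA]⟩)
    rw [hFA] at h
    rw [h]
    refine mul_ne_zero hκ ?_
    rw [Z_congr c (x' := x) (y' := y) (fun i hi => by simp [hi]) (fun i hi => by
      simp [sh, hi])]
    exact hZ

end Pool.TH
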