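import Pool.Agent.Work.MP_29fd3c_th.Sum

/-!
# Derivatives of theta series

If the derivatives of orders at most `m` of the Riemann theta function vanish at `z`, then
`∑ P(n) exp(..) = 0` for all products `P` of at most `m` linear forms in different coordinates.
-/

set_option autoImplicit false

namespace Pool.TH

open Finset Complex

variable {g : ℕ}

/-- the terms of the theta series -/
noncomputable def term (τ : Matrix (Fin g) (Fin g) ℂ) (z : Fin g → ℂ) (n : Fin g → ℤ) : ℂ :=
  Complex.exp (Real.pi * Complex.I *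
      dotProduct (fun i => (n i : ℂ)) (τ.mulVec (fun i => (n i : ℂ))) +
    2 * Real.pi * Complex.I * dotProduct (fun i => (n i : ℂ)) z)

/-- the theta function -/
noncomputable def theta (τ : Matrix (Fin g) (Fin g) ℂ) (z : Fin g → ℂ) : ℂ :=
  ∑' n : Fin g → ℤ, term τ z n

/-- very good convergence of the theta series at `z` -/
def Dom (τ : Matrix (Fin g) (Fin g) ℂ) (z : Fin g → ℂ) : Prop :=
  ∀ B : ℝ, Summable fun n : Fin g → ℤ => ‖term τ z n‖ * Real.exp (B * N1 n)

/-- the linear form `h ↦ 2πi (n·h)` -/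
noncomputable def L (n : Fin g → ℤ) : (Fin g → ℂ) →L[ℂ] ℂ :=
  (2 * Real.pi * Complex.I : ℂ) • ∑ i, (n i : ℂ) • ContinuousLinearMap.proj (R := ℂ) (φ := fun _ : Fin g => ℂ) i

theorem L_apply (n : Fin g → ℤ) (h : Fin g → ℂ) :
    L n h = 2 * Real.pi * Complex.I * ∑ i, (n i : ℂ) * h i := by
  simp [L]

theorem L_norm_apply (n : Fin g → ℤ) (h : Fin g → ℂ) : ‖L n h‖ ≤ 2 * Real.pi * N1 n * ‖h‖ := by
  rw [L_apply, norm_mul]
  have h1 : ‖(2 * Real.pi * Complex.I : ℂ)‖ = 2 * Real.pi := by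
    simp [abs_of_pos Real.pi_pos]
  have hpi : (0 : ℝ) ≤ 2 * Real.pi := by positivity
  rw [h1, mul_assoc (2 * Real.pi) (N1 n) ‖h‖]
  refine mul_le_mul_of_nonneg_left ?_ hpi
  rw [N1, sum_mul]
  refine (norm_sum_le _ _).trans (sum_le_sum fun i _ => ?_)
  rw [norm_mul, Complex.norm_intCast]
  exact mul_le_mul_of_nonneg_left (norm_le_pi_norm h i) (abs_nonneg _)

theorem L_norm (n : Fin g → ℤ) : ‖L n‖ ≤ 2 * Real.pi * N1 n :=
  ContinuousLinearMap.opNorm_le_bound _ (by have := N1_nonneg n; positivity) (L_norm_apply n)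

theorem term_add (τ : Matrix (Fin g) (Fin g) ℂ) (z h : Fin g → ℂ) (n : Fin g → ℤ) :
    term τ (z + h) n = term τ z n * Complex.exp (L n h) := by
  rw [term, term, ← Complex.exp_add, L_apply]
  congr 1
  rw [dotProduct_add]
  simp only [dotProduct]
  ring

/-- the `k`-th term of the power series of one exponential -/
noncomputable def pk (τ : Matrix (Fin g) (Fin g) ℂ) (z : Fin g → ℂ) (k : ℕ) (n : Fin g → ℤ) :
    ContinuousMultilinearMap ℂ (fun _ : Fin k => (Fin g → ℂ)) ℂ :=
  (term τ z n / (k.factorial : ℂ)) •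
    (ContinuousMultilinearMap.mkPiAlgebra ℂ (Fin k) ℂ).compContinuousLinearMap (fun _ => L n)

theorem pk_apply (τ : Matrix (Fin g) (Fin g) ℂ) (z : Fin g → ℂ) (k : ℕ) (n : Fin g → ℤ)
    (v : Fin k → (Fin g → ℂ)) : pk τ z k n v = term τ z n / (k.factorial : ℂ) * ∏ j, L n (v j) := by
  simp [pk]

theorem pk_norm (τ : Matrix (Fin g) (Fin g) ℂ) (z : Fin g → ℂ) (k : ℕ) (n : Fin g → ℤ) :
    ‖pk τ z k n‖ ≤ ‖term τ z n‖ * ((2 * Real.pi * N1 n) ^ k / (k.factorial : ℝ)) := by
  rw [pk, norm_smul, norm_div, Complex.norm_natCast, div_mul_eq_mul_div, mul_div_assoc]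
  refine mul_le_mul_of_nonneg_left ?_ (norm_nonneg _)
  refine div_le_div_of_nonneg_right ?_ (by positivity)
  refine (ContinuousMultilinearMap.norm_compContinuousLinearMap_le _ _).trans ?_
  rw [ContinuousMultilinearMap.norm_mkPiAlgebra, one_mul, prod_const, card_univ, Fintype.card_fin]
  exact pow_le_pow_left₀ (norm_nonneg _) (L_norm n) _

theorem pow_div_factorial_le {x : ℝ} (hx : 0 ≤ x) (k : ℕ) :
    x ^ k / (k.factorial : ℝ) ≤ Real.exp x := Real.pow_div_factorial_le_exp x hx k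

theorem pk_norm' (τ : Matrix (Fin g) (Fin g) ℂ) (z : Fin g → ℂ) (k : ℕ) (n : Fin g → ℤ) :
    ‖pk τ z k n‖ ≤ ‖term τ z n‖ * Real.exp ((2 * Real.pi) * N1 n) := by
  refine (pk_norm τ z k n).trans (mul_le_mul_of_nonneg_left ?_ (norm_nonneg _))
  exact pow_div_factorial_le (by have := N1_nonneg n; positivity) k

theorem pk_summable {τ : Matrix (Fin g) (Fin g) ℂ} {z : Fin g → ℂ} (hD : Dom τ z) (k : ℕ) :
    Summable (pk τ z k) :=
  Summable.of_norm_bounded (hD (2 * Real.pi)) (pk_norm' τ z k)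

/-- the power series of the theta function -/
noncomputable def ser (τ : Matrix (Fin g) (Fin g) ℂ) (z : Fin g → ℂ) :
    FormalMultilinearSeries ℂ (Fin g → ℂ) ℂ := fun k => ∑' n, pk τ z k n

theorem ser_apply {τ : Matrix (Fin g) (Fin g) ℂ} {z : Fin g → ℂ} (hD : Dom τ z) (k : ℕ)
    (v : Fin k → (Fin g → ℂ)) :
    ser τ z k v = ∑' n, term τ z n / (k.factorial : ℂ) * ∏ j, L n (v j) := by
  rw [ser, ContinuousMultilinearMap.tsum_eval (pk_summable hD k)]
  exact tsum_congr (fun n => pk_apply τ z k n v)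

theorem hasFPS {τ : Matrix (Fin g) (Fin g) ℂ} {z : Fin g → ℂ} (hD : Dom τ z) :
    HasFPowerSeriesOnBall (theta τ) (ser τ z) z 1 := by
  refine ⟨?_, one_pos, ?_⟩
  · refine (ser τ z).le_radius_of_bound (r := 1)
      (∑' n, ‖term τ z n‖ * Real.exp ((2 * Real.pi) * N1 n)) ?_
    intro k
    rw [NNReal.coe_one, one_pow, mul_one, ser]
    exact tsum_of_norm_bounded (hD (2 * Real.pi)).hasSum (pk_norm' τ z k)
  · intro y hy
    have hy1 : ‖y‖ ≤ 1 := by
      rw [Metric.mem_eball, edist_zero_right] at hy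
      rw [enorm_eq_nnnorm, ENNReal.coe_lt_one_iff] at hy
      exact_mod_cast hy.le
    have hLy : ∀ n : Fin g → ℤ, ‖L n y‖ ≤ 2 * Real.pi * N1 n := by
      intro n
      refine (L_norm_apply n y).trans ?_
      have := N1_nonneg n
      have h2 : 0 ≤ 2 * Real.pi * N1 n := by positivity
      nlinarith
    -- the double series
    set f : (Fin g → ℤ) × ℕ → ℂ := fun q =>
      term τ z q.1 / (q.2.factorial : ℂ) * (L q.1 y) ^ q.2 with hf
    have hfn : ∀ q, ‖f q‖ = ‖term τ z q.1‖ * (‖L q.1 y‖ ^ q.2 / (q.2.factorial : ℝ)) := by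
      intro q
      simp only [hf]
      rw [norm_mul, norm_div, Complex.norm_natCast, norm_pow]
      ring
    have hexp : ∀ x : ℝ, HasSum (fun k : ℕ => x ^ k / (k.factorial : ℝ)) (Real.exp x) := by
      intro x
      rw [Real.exp_eq_exp_ℝ]
      exact NormedSpace.expSeries_div_hasSum_exp x
    have hcexp : ∀ x : ℂ, HasSum (fun k : ℕ => x ^ k / (k.factorial : ℂ)) (Complex.exp x) := by
      intro x
      rw [Complex.exp_eq_exp_ℂ]
      exact NormedSpace.expSeries_div_hasSum_exp x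
    have hsf : Summable f := by
      refine Summable.of_norm ?_
      rw [summable_prod_of_nonneg (fun q => norm_nonneg _)]
      constructor
      · intro n
        simp only [hfn]
        exact (hexp _).summable.mul_left _
      · have h1 : ∀ n : Fin g → ℤ, ∑' k : ℕ, ‖f (n, k)‖ = ‖term τ z n‖ * Real.exp ‖L n y‖ := by
          intro n
          simp only [hfn]
          rw [tsum_mul_left, (hexp _).tsum_eq]
        simp only [h1]
        refine Summable.of_nonneg_of_le (fun n => by positivity) (fun n => ?_)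
          (hD (2 * Real.pi))
        exact mul_le_mul_of_nonneg_left (Real.exp_le_exp.2 (hLy n)) (norm_nonneg _)
    have h2 : ∑' q, f q = theta τ (z + y) := by
      rw [hsf.tsum_prod, theta]
      refine tsum_congr (fun n => ?_)
      rw [term_add]
      have h3 : ∀ k : ℕ, f (n, k) = term τ z n * ((L n y) ^ k / (k.factorial : ℂ)) := by
        intro k
        simp only [hf]
        ring
      simp only [h3]
      rw [tsum_mul_left, (hcexp _).tsum_eq]
    have h4 : HasSum (fun k : ℕ => ∑' n : Fin g → ℤ, f (n, k)) (∑' q, f q) := by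
      have h5 : HasSum (f ∘ (Equiv.prodComm ℕ (Fin g → ℤ))) (∑' q, f q) :=
        (Equiv.hasSum_iff _).2 hsf.hasSum
      refine h5.prod_fiberwise (fun k => ?_)
      have h6 : Summable (f ∘ (Equiv.prodComm ℕ (Fin g → ℤ))) := h5.summable
      exact (h6.prod_factor k).hasSum
    rw [h2] at h4
    have h7 : (fun k : ℕ => ser τ z k (fun _ => y)) = fun k : ℕ => ∑' n : Fin g → ℤ, f (n, k) := by
      funext k
      rw [ser_apply hD]
      refine tsum_congr (fun n => ?_)
      simp only [hf]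
      rw [prod_const, card_univ, Fintype.card_fin]
    rw [h7]
    exact h4

/-- the derivatives of the theta function -/
theorem iter_eq {τ : Matrix (Fin g) (Fin g) ℂ} {z : Fin g → ℂ} (hD : Dom τ z) (k : ℕ)
    (v : Fin k → (Fin g → ℂ)) :
    iteratedFDeriv ℂ k (theta τ) z v = ∑' n, term τ z n * ∏ j, L n (v j) := by
  rw [(hasFPS hD).iteratedFDeriv_eq_sum_of_completeSpace]
  have h1 : ∀ σ : Equiv.Perm (Fin k), ser τ z k (fun i => v (σ i)) =
      (k.factorial : ℂ)⁻¹ * ∑' n, term τ z n * ∏ j, L n (v j) := by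
    intro σ
    rw [ser_apply hD, ← tsum_mul_left]
    refine tsum_congr (fun n => ?_)
    rw [Equiv.prod_comp σ (fun j => L n (v j))]
    ring
  simp only [h1]
  rw [sum_const, card_univ, Fintype.card_perm, Fintype.card_fin, nsmul_eq_mul, ← mul_assoc,
    mul_inv_cancel₀ (by exact_mod_cast k.factorial_ne_zero), one_mul]

theorem summable_term {τ : Matrix (Fin g) (Fin g) ℂ} {z : Fin g → ℂ} (hD : Dom τ z)
    (T : Finset (Fin g)) (α β : Fin g → ℂ) :
    Summable fun n : Fin g → ℤ => (∏ i ∈ T, (α i + β i * (n i : ℂ))) * term τ z n := by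
  set M : ℝ := ∑ i, (‖α i‖ + ‖β i‖) with hM
  have hM0 : 0 ≤ M := sum_nonneg (fun _ _ => by positivity)
  refine Summable.of_norm_bounded ((hD (T.card : ℝ)).mul_left (M ^ T.card)) ?_
  intro n
  rw [norm_mul, norm_prod]
  have h1 : ∏ i ∈ T, ‖α i + β i * (n i : ℂ)‖ ≤ ∏ i ∈ T, (M * Real.exp (N1 n)) := by
    refine prod_le_prod (fun _ _ => norm_nonneg _) (fun i _ => ?_)
    have h2 : ‖α i‖ + ‖β i‖ ≤ M := by
      rw [hM]
      exact single_le_sum (f := fun i => ‖α i‖ + ‖β i‖) (fun _ _ => by positivity) (mem_univ i)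
    have h3 : |(n i : ℝ)| ≤ N1 n :=
      single_le_sum (f := fun i => |(n i : ℝ)|) (fun _ _ => abs_nonneg _) (mem_univ i)
    have h4 : N1 n + 1 ≤ Real.exp (N1 n) := Real.add_one_le_exp _
    have h5 := N1_nonneg n
    calc ‖α i + β i * (n i : ℂ)‖ ≤ ‖α i‖ + ‖β i‖ * |(n i : ℝ)| := by
          refine (norm_add_le _ _).trans ?_
          rw [norm_mul, Complex.norm_intCast]
      _ ≤ ‖α i‖ * Real.exp (N1 n) + ‖β i‖ * Real.exp (N1 n) := by
          refine add_le_add ?_ (mul_le_mul_of_nonneg_left (by linarith) (norm_nonneg _))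
          exact le_mul_of_one_le_right (norm_nonneg _) (by linarith)
      _ = (‖α i‖ + ‖β i‖) * Real.exp (N1 n) := by ring
      _ ≤ M * Real.exp (N1 n) := mul_le_mul_of_nonneg_right h2 (Real.exp_pos _).le
  rw [prod_const, mul_pow, ← Real.exp_nat_mul] at h1
  calc (∏ i ∈ T, ‖α i + β i * (n i : ℂ)‖) * ‖term τ z n‖
      ≤ (M ^ T.card * Real.exp (T.card * N1 n)) * ‖term τ z n‖ :=
        mul_le_mul_of_nonneg_right h1 (norm_nonneg _)
    _ = M ^ T.card * (‖term τ z n‖ * Real.exp (T.card * N1 n)) := by ring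

/-- vanishing of the derivatives in terms of the series -/
theorem der {τ : Matrix (Fin g) (Fin g) ℂ} {z : Fin g → ℂ} (hD : Dom τ z) {m : ℕ}
    (h : ∀ k ≤ m, iteratedFDeriv ℂ k (theta τ) z = 0) (T : Finset (Fin g)) (hT : T.card ≤ m)
    (α β : Fin g → ℂ) :
    ∑' n : Fin g → ℤ, (∏ i ∈ T, (α i + β i * (n i : ℂ))) * term τ z n = 0 := by
  classical
  -- monomials
  have key : ∀ S : Finset (Fin g), S.card ≤ m →
      ∑' n : Fin g → ℤ, (∏ i ∈ S, (n i : ℂ)) * term τ z n = 0 := by
    intro S hS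
    have h1 := iter_eq hD S.card
      (fun j => Pi.single ((S.equivFin.symm j : Fin g)) (1 : ℂ))
    rw [h _ hS] at h1
    have h2 : ∀ (n : Fin g → ℤ), ∏ j : Fin S.card,
        L n (Pi.single ((S.equivFin.symm j : Fin g)) (1 : ℂ)) =
        (2 * Real.pi * Complex.I) ^ S.card * ∏ i ∈ S, (n i : ℂ) := by
      intro n
      have h3 : ∀ i : Fin g, L n (Pi.single i (1 : ℂ)) = 2 * Real.pi * Complex.I * (n i : ℂ) := by
        intro i
        rw [L_apply]
        congr 1
        rw [sum_eq_single i]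
        · simp
        · intro j _ hj
          simp [hj]
        · intro hi
          exact absurd (mem_univ i) hi
      simp only [h3]
      rw [prod_mul_distrib, prod_const, card_univ, Fintype.card_fin]
      congr 1
      rw [Equiv.prod_comp S.equivFin.symm (fun i : S => (n (i : Fin g) : ℂ))]
      exact prod_coe_sort S (fun i => (n i : ℂ))
    simp only [h2] at h1
    have h4 : (0 : ℂ) = (2 * Real.pi * Complex.I) ^ S.card *
        ∑' n : Fin g → ℤ, (∏ i ∈ S, (n i : ℂ)) * term τ z n := by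
      rw [← tsum_mul_left]
      have h5 : (0 : ℂ) = ∑' n : Fin g → ℤ, term τ z n *
          ((2 * Real.pi * Complex.I) ^ S.card * ∏ i ∈ S, (n i : ℂ)) := h1
      rw [h5]
      exact tsum_congr (fun n => by ring)
    have h6 : ((2 * Real.pi * Complex.I : ℂ)) ^ S.card ≠ 0 := pow_ne_zero _ (by
      simp [Real.pi_ne_zero])
    exact (mul_eq_zero.1 h4.symm).resolve_left h6
  -- expansion
  have h1 : ∀ n : Fin g → ℤ, (∏ i ∈ T, (α i + β i * (n i : ℂ))) * term τ z n =
      ∑ S ∈ T.powerset, ((∏ i ∈ S, α i) * ∏ i ∈ T \ S, β i) *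
        ((∏ i ∈ T \ S, (n i : ℂ)) * term τ z n) := by
    intro n
    rw [prod_add, sum_mul]
    refine sum_congr rfl (fun S _ => ?_)
    rw [prod_mul_distrib]
    ring
  simp only [h1]
  rw [Summable.tsum_finsetSum]
  · refine sum_eq_zero (fun S _ => ?_)
    rw [tsum_mul_left, key _ ((card_le_card sdiff_subset).trans hT), mul_zero]
  · intro S _
    refine Summable.mul_left _ ?_
    have := summable_term hD (T \ S) (fun _ => 0) (fun _ => 1)
    simpa using this

end Pool.TH
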