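import Pool.Agent.Work.MP_29fd3c_th.Comb

/-!
# A quantitative form of the combinatorial theorem (Nullstellensatz)
-/

set_option autoImplicit false

namespace Pool.TH

open Finset MvPolynomial

/-- polynomials are bounded by powers -/
theorem poly_bound {I : Type*} (a : MvPolynomial I ℂ) :
    ∃ (A : ℝ) (D : ℕ), 0 ≤ A ∧ ∀ (x : I → ℂ) (B : ℝ), 1 ≤ B → (∀ i, ‖x i‖ ≤ B) →
      ‖eval x a‖ ≤ A * B ^ D := by
  induction a using MvPolynomial.induction_on with
  | C c =>
    refine ⟨‖c‖, 0, norm_nonneg _, fun x B _ _ => ?_⟩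
    simp
  | add p q hp hq =>
    obtain ⟨A, D, hA, h1⟩ := hp
    obtain ⟨A', D', hA', h2⟩ := hq
    refine ⟨A + A', D + D', add_nonneg hA hA', fun x B hB hx => ?_⟩
    rw [map_add]
    refine (norm_add_le _ _).trans ?_
    have e1 := h1 x B hB hx
    have e2 := h2 x B hB hx
    have e3 : B ^ D ≤ B ^ (D + D') := pow_le_pow_right₀ hB (by omega)
    have e4 : B ^ D' ≤ B ^ (D + D') := pow_le_pow_right₀ hB (by omega)
    rw [add_mul]
    exact add_le_add (e1.trans (mul_le_mul_of_nonneg_left e3 hA))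
      (e2.trans (mul_le_mul_of_nonneg_left e4 hA'))
  | mul_X p i hp =>
    obtain ⟨A, D, hA, h1⟩ := hp
    refine ⟨A, D + 1, hA, fun x B hB hx => ?_⟩
    rw [map_mul, eval_X, norm_mul, pow_succ, ← mul_assoc]
    have hB0 : 0 ≤ B := by linarith
    exact mul_le_mul (h1 x B hB hx) (hx i) (norm_nonneg _) (by positivity)

/-- if `m` vanishes on the common zeros of the `J k` then it is bounded by them -/
theorem loja {I K : Type} [Finite I] [Fintype K] (J : K → MvPolynomial I ℂ)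
    (m : MvPolynomial I ℂ) (h : ∀ x : I → ℂ, (∀ k, eval x (J k) = 0) → eval x m = 0) :
    ∃ (A : ℝ) (M D : ℕ), 0 ≤ A ∧ ∀ (x : I → ℂ) (B ε : ℝ), 1 ≤ B → (∀ i, ‖x i‖ ≤ B) →
      (∀ k, ‖eval x (J k)‖ ≤ ε) → ‖eval x m‖ ^ M ≤ A * B ^ D * ε := by
  classical
  have h1 : m ∈ (Ideal.span (Set.range J)).radical := by
    rw [← vanishingIdeal_zeroLocus_eq_radical (K := ℂ), mem_vanishingIdeal_iff]
    intro x hx
    rw [zeroLocus_span] at hx
    exact h x (fun k => hx _ (Set.mem_range_self k))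
  obtain ⟨M, hM⟩ := h1
  rw [Ideal.mem_span_range_iff_exists_fun] at hM
  obtain ⟨a, ha⟩ := hM
  choose A D hA hb using fun k => poly_bound (a k)
  refine ⟨∑ k, A k, M, ∑ k, D k, sum_nonneg (fun k _ => hA k), ?_⟩
  intro x B ε hB hx hJ
  have hε : ∀ k : K, 0 ≤ ε := fun k => (norm_nonneg _).trans (hJ k)
  have h2 : eval x m ^ M = ∑ k, eval x (a k) * eval x (J k) := by
    rw [← map_pow, ← ha, map_sum]
    exact sum_congr rfl (fun k _ => map_mul _ _ _)
  rw [← norm_pow, h2]
  refine (norm_sum_le _ _).trans ?_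
  have h3 : ∀ k ∈ (univ : Finset K), ‖eval x (a k) * eval x (J k)‖ ≤
      A k * (B ^ (∑ k, D k) * ε) := by
    intro k _
    rw [norm_mul]
    have e1 : B ^ D k ≤ B ^ (∑ k, D k) :=
      pow_le_pow_right₀ hB (single_le_sum (f := D) (fun _ _ => Nat.zero_le _) (mem_univ k))
    calc ‖eval x (a k)‖ * ‖eval x (J k)‖ ≤ (A k * B ^ (∑ k, D k)) * ε :=
          mul_le_mul ((hb k x B hB hx).trans (mul_le_mul_of_nonneg_left e1 (hA k))) (hJ k)
            (norm_nonneg _) (mul_nonneg (hA k) (by positivity))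
      _ = A k * (B ^ (∑ k, D k) * ε) := by ring
  refine (sum_le_sum h3).trans (le_of_eq ?_)
  rw [← sum_mul]
  ring

variable {g : ℕ}

/-- the product of the couplings inside `s` -/
noncomputable def Wp (s : Finset (Fin g)) : MvPolynomial ((Fin g × Fin g) ⊕ Fin g) ℂ :=
  ∏ i ∈ s, ∏ j ∈ s.filter (· < i), X (Sum.inl (i, j))

/-- the polynomial of the jet `(T, S)` on the set `A` of sites -/
noncomputable def Jp (A T S : Finset (Fin g)) : MvPolynomial ((Fin g × Fin g) ⊕ Fin g) ℂ :=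
  ∑ s ∈ A.powerset.filter (fun s => s ∩ T = S), Wp s * ∏ i ∈ s, X (Sum.inr i)

/-- the polynomial bounding the jets from below -/
noncomputable def mp (A : Finset (Fin g)) (p : Fin g → Fin g) :
    MvPolynomial ((Fin g × Fin g) ⊕ Fin g) ℂ :=
  (∏ q : Fin g × Fin g, X (Sum.inl q)) * (∏ i ∈ A, X (Sum.inr i)) *
    ∏ i ∈ A.filter (fun i => p i < i), (X (Sum.inl (i, p i)) - 1)

/-- the matching restricted to `A` -/
def rp (A : Finset (Fin g)) (p : Fin g → Fin g) : Fin g → Fin g :=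
  fun i => if i ∈ A ∧ p i ∈ A then p i else i

theorem expQ_eq {c : Fin g → Fin g → ℂ} (hc : Sym c) (s : Finset (Fin g)) :
    Complex.exp (Q c s) = ∏ i ∈ s, ∏ j ∈ s.filter (· < i), w c i j := by
  have h1 : Q c s = ∑ i ∈ s, ∑ j ∈ s.filter (· < i), 2 * c i j := by
    have h2 : ∀ i ∈ s, ∑ j ∈ s, c i j =
        ∑ j ∈ s.filter (· < i), c i j + ∑ j ∈ s.filter (i < ·), c i j := by
      intro i hi
      rw [← sum_filter_add_sum_filter_not s (· < i)]
      congr 1
      have h3 : s.filter (fun j => ¬ j < i) = insert i (s.filter (i < ·)) := by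
        ext j
        simp only [mem_filter, mem_insert, not_lt]
        constructor
        · rintro ⟨hj, hij⟩
          rcases hij.eq_or_lt with h | h
          · exact Or.inl h.symm
          · exact Or.inr ⟨hj, h⟩
        · rintro (rfl | ⟨hj, h⟩)
          · exact ⟨hi, le_rfl⟩
          · exact ⟨hj, h.le⟩
      rw [h3, sum_insert (by simp), hc.diag, zero_add]
    rw [Q, sum_congr rfl h2, sum_add_distrib]
    have h4 : ∑ i ∈ s, ∑ j ∈ s.filter (i < ·), c i j =
        ∑ i ∈ s, ∑ j ∈ s.filter (· < i), c i j := by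
      have h5 : ∀ i, ∑ j ∈ s.filter (i < ·), c i j = ∑ j ∈ s, if i < j then c i j else 0 :=
        fun i => sum_filter _ _
      have h6 : ∀ i, ∑ j ∈ s.filter (· < i), c i j = ∑ j ∈ s, if j < i then c i j else 0 :=
        fun i => sum_filter _ _
      simp only [h5, h6]
      rw [sum_comm]
      refine sum_congr rfl (fun i _ => sum_congr rfl (fun j _ => ?_))
      rw [hc.symm]
    rw [h4, ← sum_add_distrib]
    refine sum_congr rfl (fun i _ => ?_)
    rw [← sum_add_distrib]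
    exact sum_congr rfl (fun j _ => (two_mul _).symm)
  rw [h1, Complex.exp_sum]
  refine prod_congr rfl (fun i _ => ?_)
  rw [Complex.exp_sum]
  rfl

theorem eval_Jp {c : Fin g → Fin g → ℂ} (hc : Sym c) (u : Fin g → ℂ)
    (x : (Fin g × Fin g) ⊕ Fin g → ℂ) (A T S : Finset (Fin g))
    (hx : ∀ i ∈ A, ∀ j ∈ A, j < i → x (Sum.inl (i, j)) = w c i j)
    (hu : ∀ i ∈ A, x (Sum.inr i) = u i) :
    eval x (Jp A T S) = ∑ s ∈ A.powerset.filter (fun s => s ∩ T = S),
      Complex.exp (Q c s) * ∏ i ∈ s, u i := by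
  rw [Jp, map_sum]
  refine sum_congr rfl (fun s hs => ?_)
  have hsA : s ⊆ A := mem_powerset.1 (mem_filter.1 hs).1
  rw [map_mul, Wp, map_prod, map_prod, expQ_eq hc]
  congr 1
  · refine prod_congr rfl (fun i hi => ?_)
    rw [map_prod]
    refine prod_congr rfl (fun j hj => ?_)
    rw [mem_filter] at hj
    rw [eval_X]
    exact hx i (hsA hi) j (hsA hj.1) hj.2
  · refine prod_congr rfl (fun i hi => ?_)
    rw [eval_X]
    exact hu i (hsA hi)

/-- the partition function in terms of the jets -/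
theorem Z_eq_sum {V : Type*} [DecidableEq V] (c : V → V → ℂ) (u : V → ℂ) {A T : Finset V}
    (hT : T ⊆ A) (hu : ∀ i ∈ A, u i ≠ 0) (x y : V → ℂ)
    (hxy : ∀ i ∈ A, i ∉ T → x i = 1 ∧ y i = u i) :
    Z c A x y = ∑ S ∈ T.powerset, ((∏ i ∈ S, y i / u i) * ∏ i ∈ T \ S, x i) *
      ∑ s ∈ A.powerset.filter (fun s => s ∩ T = S), Complex.exp (Q c s) * ∏ i ∈ s, u i := by
  rw [Z, ← sum_fiberwise_of_maps_to (s := A.powerset) (t := T.powerset) (g := fun s => s ∩ T)
    (fun s _ => mem_powerset.2 inter_subset_right)]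
  refine sum_congr rfl (fun S hS => ?_)
  rw [mul_sum]
  refine sum_congr rfl (fun s hs => ?_)
  rw [mem_filter, mem_powerset] at hs
  obtain ⟨hsA, hsT⟩ := hs
  -- split the products
  have h1 : ∏ i ∈ s, y i = (∏ i ∈ S, y i / u i) * ∏ i ∈ s, u i := by
    have e1 : s = S ∪ (s \ T) := by
      rw [← hsT]
      ext i
      simp only [mem_union, mem_inter, mem_sdiff]
      tauto
    have e2 : Disjoint S (s \ T) := by
      rw [← hsT, disjoint_left]
      intro i hi hi'
      exact (mem_sdiff.1 hi').2 (mem_inter.1 hi).2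
    have hSs : S ⊆ s := by rw [← hsT]; exact inter_subset_left
    have e3 : ∏ i ∈ s, y i = (∏ i ∈ S, y i) * ∏ i ∈ s \ T, y i := by
      conv_lhs => rw [e1]
      rw [prod_union e2]
    have e4 : ∏ i ∈ s, u i = (∏ i ∈ S, u i) * ∏ i ∈ s \ T, u i := by
      conv_lhs => rw [e1]
      rw [prod_union e2]
    rw [e3, e4]
    have e5 : ∏ i ∈ s \ T, y i = ∏ i ∈ s \ T, u i :=
      prod_congr rfl (fun i hi => (hxy i (hsA (mem_sdiff.1 hi).1) (mem_sdiff.1 hi).2).2)
    have e6 : ∏ i ∈ S, y i = (∏ i ∈ S, y i / u i) * ∏ i ∈ S, u i := by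
      rw [← prod_mul_distrib]
      refine prod_congr rfl (fun i hi => ?_)
      rw [div_mul_cancel₀ _ (hu i (hsA (hSs hi)))]
    rw [e5, e6]
    ring
  have h2 : ∏ i ∈ A \ s, x i = ∏ i ∈ T \ S, x i := by
    symm
    refine prod_subset ?_ ?_
    · intro i hi
      rw [mem_sdiff] at hi ⊢
      refine ⟨hT hi.1, fun his => hi.2 ?_⟩
      rw [← hsT]
      exact mem_inter.2 ⟨his, hi.1⟩
    · intro i hi hi'
      rw [mem_sdiff] at hi hi'
      refine (hxy i hi.1 (fun hiT => hi' ⟨hiT, fun hiS => ?_⟩)).1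
      rw [← hsT] at hiS
      exact hi.2 (mem_inter.1 hiS).1
  rw [h1, h2]
  ring

/-- admissible jets -/
def Adm (A : Finset (Fin g)) (p : Fin g → Fin g) (k : Finset (Fin g) × Finset (Fin g)) : Prop :=
  k.1 ⊆ A ∧ k.2 ⊆ k.1 ∧ 2 * k.1.card ≤ A.card + ex p A

theorem ex_rp (A : Finset (Fin g)) (p : Fin g → Fin g) : ex (rp A p) A = ex p A := by
  rw [ex, ex]
  congr 1
  ext i
  simp only [mem_filter, rp]
  constructor
  · rintro ⟨hi, h⟩
    refine ⟨hi, ?_⟩
    by_cases hpA : p i ∈ A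
    · rw [if_pos ⟨hi, hpA⟩] at h
      exact h
    · exact Or.inr hpA
  · rintro ⟨hi, h⟩
    refine ⟨hi, ?_⟩
    rcases h with h | h
    · rw [if_pos ⟨hi, h.symm ▸ hi⟩]
      exact Or.inl h
    · rw [if_neg (fun hh => h hh.2)]
      exact Or.inl rfl

/-- on the common zeros of the admissible jets one of the factors of `mp` vanishes -/
theorem zero_locus {p : Fin g → Fin g} (hp : ∀ i, p (p i) = i) (A : Finset (Fin g))
    (x : (Fin g × Fin g) ⊕ Fin g → ℂ)
    (h : ∀ k : Finset (Fin g) × Finset (Fin g), Adm A p k → eval x (Jp A k.1 k.2) = 0) :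
    eval x (mp A p) = 0 := by
  classical
  by_contra hm
  rw [mp, map_mul, map_mul, map_prod, map_prod, map_prod] at hm
  have hm1 := left_ne_zero_of_mul (left_ne_zero_of_mul hm)
  have hm2 := right_ne_zero_of_mul (left_ne_zero_of_mul hm)
  have hm3 := right_ne_zero_of_mul hm
  have hx1 : ∀ q : Fin g × Fin g, x (Sum.inl q) ≠ 0 := by
    intro q
    have := (prod_ne_zero_iff.1 hm1) q (mem_univ q)
    rwa [eval_X] at this
  have hx2 : ∀ i ∈ A, x (Sum.inr i) ≠ 0 := by
    intro i hi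
    have := (prod_ne_zero_iff.1 hm2) i hi
    rwa [eval_X] at this
  have hx3 : ∀ i ∈ A, p i < i → x (Sum.inl (i, p i)) ≠ 1 := by
    intro i hi hpi hh
    have := (prod_ne_zero_iff.1 hm3) i (mem_filter.2 ⟨hi, hpi⟩)
    apply this
    rw [map_sub, eval_X, map_one, hh, sub_self]
  -- couplings
  set c : Fin g → Fin g → ℂ := fun i j =>
    if j < i then Complex.log (x (Sum.inl (i, j))) / 2
    else if i < j then Complex.log (x (Sum.inl (j, i))) / 2 else 0 with hc
  have hsym : Sym c := by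
    constructor
    · intro i
      simp [hc]
    · intro i j
      simp only [hc]
      rcases lt_trichotomy i j with hij | hij | hij
      · rw [if_neg hij.not_gt, if_pos hij, if_pos hij]
      · subst hij; rfl
      · rw [if_pos hij, if_neg hij.not_gt, if_pos hij]
  have hw : ∀ i j, j < i → w c i j = x (Sum.inl (i, j)) := by
    intro i j hij
    simp only [w, hc, if_pos hij]
    rw [mul_div_cancel₀ _ (two_ne_zero), Complex.exp_log (hx1 _)]
  set u : Fin g → ℂ := fun i => x (Sum.inr i) with hu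
  have hmatch : Match c (rp A p) := by
    constructor
    · intro i
      simp only [rp]
      by_cases hi : i ∈ A ∧ p i ∈ A
      · rw [if_pos hi, hp i, if_pos ⟨hi.2, hi.1⟩]
      · rw [if_neg hi, if_neg hi]
    · intro i hi
      simp only [rp] at hi ⊢
      by_cases hiA : i ∈ A ∧ p i ∈ A
      · rw [if_pos hiA] at hi ⊢
        rcases lt_or_gt_of_ne hi with h1 | h1
        · rw [hw i (p i) h1]
          exact hx3 i hiA.1 h1
        · rw [w_symm hsym, hw (p i) i h1]
          have := hx3 (p i) hiA.2 (by rw [hp i]; exact h1)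
          rwa [hp i] at this
      · rw [if_neg hiA] at hi
        exact absurd rfl hi
  have h1 := mu_match hsym hmatch A.card A rfl (u := u) hx2
  rw [ex_rp] at h1
  obtain ⟨T, hT, hTc, x', y', hxy, hZ⟩ := good_mu hsym A u
  apply hZ
  rw [Z_eq_sum c u hT hx2 x' y' hxy]
  refine sum_eq_zero (fun S hS => ?_)
  rw [← eval_Jp hsym u x A T S (fun i _ j _ hij => (hw i j hij).symm) (fun i _ => rfl),
    h (T, S) ⟨hT, mem_powerset.1 hS, by
      have : 2 * T.card ≤ A.card + ex p A := by omega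
      exact this⟩, mul_zero]

/-- the quantitative form -/
theorem quant (p : Fin g → Fin g) (hp : ∀ i, p (p i) = i) (A : Finset (Fin g)) :
    ∃ (a : ℝ) (M D : ℕ), 0 ≤ a ∧ ∀ (x : (Fin g × Fin g) ⊕ Fin g → ℂ) (B ε : ℝ), 1 ≤ B →
      (∀ i, ‖x i‖ ≤ B) →
      (∀ k : Finset (Fin g) × Finset (Fin g), Adm A p k → ‖eval x (Jp A k.1 k.2)‖ ≤ ε) →
      ‖eval x (mp A p)‖ ^ M ≤ a * B ^ D * ε := by
  classical
  obtain ⟨a, M, D, ha, h⟩ := loja
    (K := {k : Finset (Fin g) × Finset (Fin g) // Adm A p k})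
    (fun k => Jp A k.1.1 k.1.2) (mp A p)
    (fun x hx => zero_locus hp A x (fun k hk => hx ⟨k, hk⟩))
  exact ⟨a, M, D, ha, fun x B ε hB hx hJ => h x B ε hB hx (fun k => hJ k.1 k.2)⟩

end Pool.TH
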