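import Pool.Agent.Work.MP_29fd3c_th.Normal2
import Pool.Agent.Work.MP_29fd3c_th.Null

/-!
# The multiplicity of theta divisors near the boundary
-/

set_option autoImplicit false

namespace Pool.TH

open Finset Complex

variable {g : ℕ}

/-- the number of fixed points -/
def fixed (p : Fin g → Fin g) : ℕ := (univ.filter (fun i => p i = i)).card

theorem ind_injective : Function.Injective (ind (g := g)) := by
  intro s t h
  ext i
  have h1 := congrFun h i
  simp only [ind] at h1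
  by_cases hs : i ∈ s <;> by_cases ht : i ∈ t <;> simp_all

theorem pigeon (a : Fin g → ℝ) (b : ℕ → ℝ) (hb : Monotone b) :
    ∃ j ≤ g, ∀ i, a i ≤ b j ∨ b (j + 1) < a i := by
  by_contra hcon
  push Not at hcon
  have h1 : ∀ j : Fin (g + 1), ∃ i, b j < a i ∧ a i ≤ b (j + 1) := fun j =>
    hcon j (Nat.lt_succ_iff.1 j.2)
  choose f hf using h1
  have hinj : Function.Injective f := by
    intro j k hjk
    by_contra hne
    rcases lt_or_gt_of_ne hne with h | h
    · have e1 := (hf j).2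
      have e2 := (hf k).1
      rw [hjk] at e1
      have e3 : b (j + 1) ≤ b k := hb (by exact_mod_cast h)
      linarith
    · have e1 := (hf k).2
      have e2 := (hf j).1
      rw [← hjk] at e1
      have e3 : b (k + 1) ≤ b j := hb (by exact_mod_cast h)
      linarith
  have := Fintype.card_le_of_injective f hinj
  rw [Fintype.card_fin, Fintype.card_fin] at this
  omega

/-- uniform constants -/
theorem quant_unif (g : ℕ) : ∃ (a : ℝ) (M D : ℕ), 0 ≤ a ∧ ∀ (p : Fin g → Fin g),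
    (∀ i, p (p i) = i) → ∀ (A : Finset (Fin g)) (x : (Fin g × Fin g) ⊕ Fin g → ℂ) (B ε l : ℝ),
      1 ≤ B → (∀ i, ‖x i‖ ≤ B) → 0 ≤ l → l ≤ 1 → 0 ≤ ε →
      (∀ k : Finset (Fin g) × Finset (Fin g), Adm A p k → ‖MvPolynomial.eval x (Jp A k.1 k.2)‖ ≤ ε) →
      l ≤ ‖MvPolynomial.eval x (mp A p)‖ → l ^ M ≤ a * B ^ D * ε := by
  classical
  choose a M D ha h using fun (q : {p : Fin g → Fin g // ∀ i, p (p i) = i} × Finset (Fin g)) =>
    quant q.1.1 q.1.2 q.2
  refine ⟨∑ q, a q, ∑ q, M q, ∑ q, D q, sum_nonneg (fun q _ => ha q), ?_⟩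
  intro p hp A x B ε l hB hx hl0 hl1 hε hJ hl
  have h1 := h (⟨p, hp⟩, A) x B ε hB hx hJ
  have e1 : l ^ (∑ q, M q) ≤ l ^ M (⟨p, hp⟩, A) :=
    pow_le_pow_of_le_one hl0 hl1 (single_le_sum (f := M) (fun _ _ => Nat.zero_le _) (mem_univ _))
  have e2 : l ^ M (⟨p, hp⟩, A) ≤ ‖MvPolynomial.eval x (mp A p)‖ ^ M (⟨p, hp⟩, A) :=
    pow_le_pow_left₀ hl0 hl _
  have e3 : a (⟨p, hp⟩, A) ≤ ∑ q, a q := single_le_sum (f := a) (fun q _ => ha q) (mem_univ _)
  have e4 : B ^ D (⟨p, hp⟩, A) ≤ B ^ (∑ q, D q) :=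
    pow_le_pow_right₀ hB (single_le_sum (f := D) (fun _ _ => Nat.zero_le _) (mem_univ _))
  have hB0 : 0 ≤ B ^ D (⟨p, hp⟩, A) := by positivity
  refine e1.trans (e2.trans (h1.trans ?_))
  refine mul_le_mul_of_nonneg_right ?_ hε
  exact mul_le_mul e3 e4 hB0 (sum_nonneg (fun q _ => ha q))

/-- the tail of the series -/
theorem tail_bound {η t : ℝ} (hη : 0 ≤ η) (hη8 : 8 * (g + 1) * η ≤ 1) (ht : 1 ≤ t)
    {G : (Fin g → ℤ) → ℂ} (hG : ∀ n, ‖G n‖ ≤ Real.exp (∑ i, psi (η * t) t g (n i)))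
    (T S : Finset (Fin g)) (n : Fin g → ℤ)
    (hn : n ∉ Set.range (ind (g := g))) :
    ‖(∏ i ∈ T, ((if i ∈ S then (0 : ℂ) else 1) + (if i ∈ S then (1 : ℂ) else -1) * (n i : ℂ))) *
      G n‖ ≤ Real.exp (2 * Real.pi * g ^ 2 * (η * t) - Real.pi * t / 8) *
        (Real.exp 3) ^ g * Real.exp (-N1 n) := by
  classical
  have hπ := Real.pi_gt_three
  have hg0 : (0 : ℝ) ≤ g := Nat.cast_nonneg _
  -- a bad coordinate
  have h1 : ∃ i, n i ≠ 0 ∧ n i ≠ 1 := by
    by_contra h
    push Not at h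
    apply hn
    refine ⟨univ.filter (fun i => n i = 1), ?_⟩
    funext i
    simp only [ind, mem_filter, mem_univ, true_and]
    split_ifs with h2
    · exact h2.symm
    · by_contra h3
      exact h2 (h i (fun h4 => h3 h4.symm))
  obtain ⟨i₀, hi0, hi1⟩ := h1
  -- the polynomial
  have hP : ‖∏ i ∈ T, ((if i ∈ S then (0 : ℂ) else 1) +
      (if i ∈ S then (1 : ℂ) else -1) * (n i : ℂ))‖ ≤ Real.exp (N1 n) := by
    rw [norm_prod]
    have e1 : ∀ i ∈ T, ‖(if i ∈ S then (0 : ℂ) else 1) +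
        (if i ∈ S then (1 : ℂ) else -1) * (n i : ℂ)‖ ≤ Real.exp |(n i : ℝ)| := by
      intro i _
      have e2 := Real.add_one_le_exp |(n i : ℝ)|
      split_ifs
      · rw [zero_add, one_mul, Complex.norm_intCast]
        linarith
      · refine (norm_add_le _ _).trans ?_
        rw [norm_one, norm_mul, norm_neg, norm_one, one_mul, Complex.norm_intCast]
        linarith
    refine (prod_le_prod (fun _ _ => norm_nonneg _) e1).trans ?_
    rw [← Real.exp_sum, Real.exp_le_exp, N1]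
    exact sum_le_sum_of_subset_of_nonneg (subset_univ _) (fun _ _ _ => abs_nonneg _)
  -- the coordinates
  set K : ℝ := 2 * Real.pi * g * (η * t) with hK
  have hK0 : 0 ≤ K := by positivity
  have hcoord : ∀ k : ℤ, psi (η * t) t g k + 2 * |(k : ℝ)| ≤ K + 3 := by
    intro k
    rw [psi]
    split_ifs with hk
    · have e1 : 2 * Real.pi * (η * t) * g = K := by rw [hK]; ring
      rw [e1]
      rcases hk with rfl | rfl
      · rw [Int.cast_zero, abs_zero]; linarith
      · rw [Int.cast_one, abs_one]; linarith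
    · have e1 : Real.pi * t / 4 ≤ Real.pi * t / 2 - 2 * Real.pi * (η * t) * g := by
        have e2 : 8 * g * η ≤ 1 := by nlinarith
        have e3 : 0 ≤ Real.pi * t * (1 - 8 * g * η) := mul_nonneg (by positivity) (by linarith)
        nlinarith
      have e4 : (3 : ℝ) / 4 ≤ Real.pi * t / 2 - 2 * Real.pi * (η * t) * g := by nlinarith
      have e5 : (3 : ℝ) / 4 * (k : ℝ) ^ 2 ≤
          (Real.pi * t / 2 - 2 * Real.pi * (η * t) * g) * (k : ℝ) ^ 2 :=
        mul_le_mul_of_nonneg_right e4 (sq_nonneg _)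
      have e6 : 2 * |(k : ℝ)| ≤ 3 / 4 * (k : ℝ) ^ 2 + 3 := by
        rw [← sq_abs]
        nlinarith [sq_nonneg (3 * |(k : ℝ)| - 4)]
      linarith
  have hbad : psi (η * t) t g (n i₀) + 2 * |((n i₀ : ℤ) : ℝ)| ≤ K + 3 - Real.pi * t / 8 := by
    rw [psi, if_neg (by rintro (h | h); exacts [hi0 h, hi1 h])]
    have e1 : Real.pi * t / 4 ≤ Real.pi * t / 2 - 2 * Real.pi * (η * t) * g := by
      have e2 : 8 * g * η ≤ 1 := by nlinarith
      have e3 : 0 ≤ Real.pi * t * (1 - 8 * g * η) := mul_nonneg (by positivity) (by linarith)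
      nlinarith
    have e2 : (1 : ℝ) ≤ |((n i₀ : ℤ) : ℝ)| := by exact_mod_cast Int.one_le_abs hi0
    set k : ℝ := |((n i₀ : ℤ) : ℝ)| with hk
    have e3 : ((n i₀ : ℤ) : ℝ) ^ 2 = k ^ 2 := by rw [hk, sq_abs]
    have e4 : Real.pi * t / 4 * k ^ 2 ≤
        (Real.pi * t / 2 - 2 * Real.pi * (η * t) * g) * k ^ 2 :=
      mul_le_mul_of_nonneg_right e1 (sq_nonneg _)
    rw [e3]
    -- `π t k² / 4 ≥ π t / 8 + 3 k² / 8`
    have e5 : 1 ≤ k ^ 2 := by nlinarith
    have e6 : Real.pi * t / 8 + 3 / 8 * k ^ 2 ≤ Real.pi * t / 4 * k ^ 2 := by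
      have f1 : 3 ≤ Real.pi * t := by nlinarith
      nlinarith
    have e7 : 2 * k ≤ 3 / 8 * k ^ 2 + 3 := by
      nlinarith [sq_nonneg (3 * k - 8)]
    linarith
  have hsum : ∑ i, (psi (η * t) t g (n i) + 2 * |(n i : ℝ)|) ≤
      g * (K + 3) - Real.pi * t / 8 := by
    rw [← add_sum_erase univ _ (mem_univ i₀)]
    have e1 : ∑ i ∈ univ.erase i₀, (psi (η * t) t g (n i) + 2 * |(n i : ℝ)|) ≤
        (g - 1) * (K + 3) := by
      refine (sum_le_sum (fun i _ => hcoord (n i))).trans ?_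
      rw [sum_const, nsmul_eq_mul]
      refine mul_le_mul_of_nonneg_right ?_ (by linarith)
      have e2 : (univ.erase i₀).card + 1 = g := by
        rw [card_erase_add_one (mem_univ i₀), card_univ, Fintype.card_fin]
      have e3 : ((univ.erase i₀).card : ℝ) + 1 = g := by exact_mod_cast e2
      linarith
    linarith
  rw [sum_add_distrib, ← mul_sum] at hsum
  rw [norm_mul]
  calc ‖∏ i ∈ T, ((if i ∈ S then (0 : ℂ) else 1) +
      (if i ∈ S then (1 : ℂ) else -1) * (n i : ℂ))‖ * ‖G n‖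
      ≤ Real.exp (N1 n) * Real.exp (∑ i, psi (η * t) t g (n i)) :=
        mul_le_mul hP (hG n) (norm_nonneg _) (Real.exp_pos _).le
    _ = Real.exp (N1 n + ∑ i, psi (η * t) t g (n i)) := by rw [Real.exp_add]
    _ ≤ Real.exp ((2 * Real.pi * g ^ 2 * (η * t) - Real.pi * t / 8) + g * 3 + (-N1 n)) := by
        rw [Real.exp_le_exp]
        have e1 : N1 n = ∑ i, |(n i : ℝ)| := rfl
        rw [e1]
        have e2 : (g : ℝ) * (K + 3) = 2 * Real.pi * g ^ 2 * (η * t) + g * 3 := by rw [hK]; ring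
        linarith
    _ = _ := by
        rw [Real.exp_add, Real.exp_add, ← Real.exp_nat_mul]

/-- the jets of the leading part on the active sites are small if the jets of the series vanish -/
theorem jet_small {η t ξ Λ : ℝ} (hη : 0 ≤ η) (hη8 : 8 * (g + 1) * η ≤ 1) (ht : 1 ≤ t)
    {c : Fin g → Fin g → ℂ} {u : Fin g → ℂ} {G : (Fin g → ℤ) → ℂ} (hc : Sym c)
    (hcb : ∀ i j, |(c i j).re| ≤ Real.pi * (η * t))
    (hub : ∀ i, ‖u i‖ ≤ Real.exp (g * (2 * Real.pi * (η * t) * g)))
    (hval : ∀ s : Finset (Fin g), G (ind s) = Complex.exp (Q c s) * ∏ i ∈ s, u i)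
    (hG : ∀ n, ‖G n‖ ≤ Real.exp (∑ i, psi (η * t) t g (n i)))
    {N : ℕ} (hvan : ∀ S : Finset (Fin g), S.card ≤ N → ∀ α β : Fin g → ℂ,
      ∑' n : Fin g → ℤ, (∏ i ∈ S, (α i + β i * (n i : ℂ))) * G n = 0)
    (A : Finset (Fin g)) (hA : ∀ i, i ∉ A → ‖u i‖ ≤ Real.exp (-(Λ * ξ * t)))
    (T S : Finset (Fin g)) (hT : T ⊆ A) (hS : S ⊆ T) (hTN : T.card ≤ N) :
    ‖∑ s ∈ A.powerset.filter (fun s => s ∩ T = S), Complex.exp (Q c s) * ∏ i ∈ s, u i‖ ≤
      2 ^ g * Real.exp ((Real.pi * g ^ 2 + 2 * Real.pi * g ^ 3) * (η * t) - Λ * ξ * t) +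
      (∑' n : Fin g → ℤ, Real.exp (-N1 n)) *
        (Real.exp (2 * Real.pi * g ^ 2 * (η * t) - Real.pi * t / 8) * (Real.exp 3) ^ g) := by
  classical
  have hπ := Real.pi_pos
  have hηt : 0 ≤ η * t := mul_nonneg hη (by linarith)
  set P : (Fin g → ℤ) → ℂ := fun n => ∏ i ∈ T, ((if i ∈ S then (0 : ℂ) else 1) +
    (if i ∈ S then (1 : ℂ) else -1) * (n i : ℂ)) with hP
  have hzero : ∑' n, P n * G n = 0 := hvan T hTN _ _
  -- the value of `P` at indicators
  have hPind : ∀ s : Finset (Fin g), P (ind s) = if s ∩ T = S then 1 else 0 := by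
    intro s
    simp only [hP]
    split_ifs with h
    · refine prod_eq_one (fun i hi => ?_)
      have h1 : i ∈ S ↔ i ∈ s := by
        rw [← h, mem_inter]
        exact ⟨fun h => h.1, fun h => ⟨h, hi⟩⟩
      by_cases hs : i ∈ s
      · simp [ind, hs, h1.2 hs]
      · have : i ∉ S := fun h' => hs (h1.1 h')
        simp [ind, hs, this]
    · -- some coordinate is wrong
      have h1 : ∃ i ∈ T, ¬ (i ∈ S ↔ i ∈ s) := by
        by_contra h2
        push Not at h2
        apply h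
        ext i
        rw [mem_inter]
        constructor
        · rintro ⟨h3, h4⟩
          exact (h2 i h4).2 h3
        · intro h3
          exact ⟨(h2 i (hS h3)).1 h3, hS h3⟩
      obtain ⟨i, hiT, hi⟩ := h1
      refine prod_eq_zero hiT ?_
      by_cases hs : i ∈ s
      · have : i ∉ S := fun h' => hi ⟨fun _ => hs, fun _ => h'⟩
        simp [ind, hs, this]
      · have : i ∈ S := by
          by_contra h'
          exact hi ⟨fun h => absurd h h', fun h => absurd h hs⟩
        simp [ind, hs, this]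
  -- split the series
  set f : (Fin g → ℤ) → ℂ := fun n => P n * G n with hf
  set R : Finset (Fin g → ℤ) := univ.image (ind (g := g)) with hR
  have hRmem : ∀ n, n ∈ R ↔ n ∈ Set.range (ind (g := g)) := by
    intro n
    rw [hR, mem_image]
    simp
  set E : ℝ := Real.exp (2 * Real.pi * g ^ 2 * (η * t) - Real.pi * t / 8) *
        (Real.exp 3) ^ g with hE
  have hEpos : 0 < E := by positivity
  have htail : ∀ n, n ∉ R → ‖f n‖ ≤ E * Real.exp (-N1 n) := by
    intro n hn
    exact tail_bound hη hη8 ht hG T S n (fun h => hn ((hRmem n).2 h))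
  have hsumE : Summable (fun n : Fin g → ℤ => E * Real.exp (-N1 n)) :=
    (summable_exp_N1 g).mul_left E
  have hsum : Summable f := by
    refine (hsumE.of_norm_bounded_eventually ?_)
    have hfin : {n | ¬ ‖f n‖ ≤ E * Real.exp (-N1 n)}.Finite := by
      refine R.finite_toSet.subset (fun n hn => ?_)
      by_contra h
      exact hn (htail n h)
    exact hfin
  have h1 : ∑ n ∈ R, f n + ∑' n : {n // n ∉ R}, f n = 0 := by
    rw [hsum.sum_add_tsum_subtype_compl R]
    exact hzero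
  have h2 : ∑ n ∈ R, f n = ∑ s ∈ univ.filter (fun s : Finset (Fin g) => s ∩ T = S),
      Complex.exp (Q c s) * ∏ i ∈ s, u i := by
    rw [hR, sum_image (fun a _ b _ h => ind_injective h), sum_filter]
    refine sum_congr rfl (fun s _ => ?_)
    simp only [hf]
    rw [hPind, hval]
    split_ifs
    · rw [one_mul]
    · rw [zero_mul]
  have h3 : ‖∑' n : {n // n ∉ R}, f n‖ ≤ (∑' n : Fin g → ℤ, Real.exp (-N1 n)) * E := by
    have e1 : Summable (fun n : {n // n ∉ R} => E * Real.exp (-N1 n.1)) :=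
      hsumE.subtype _
    refine (tsum_of_norm_bounded e1.hasSum (fun n => htail n.1 n.2)).trans ?_
    have e2 : ∑' n : {n // n ∉ R}, E * Real.exp (-N1 n.1) ≤
        ∑' n : Fin g → ℤ, E * Real.exp (-N1 n) :=
      tsum_comp_le_tsum_of_inj hsumE (fun n => by positivity) Subtype.val_injective
    refine e2.trans (le_of_eq ?_)
    rw [tsum_mul_left, mul_comm]
  -- the part which sees an inactive site
  set F : Finset (Fin g) → ℂ := fun s => Complex.exp (Q c s) * ∏ i ∈ s, u i with hF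
  have hsplit : ∑ s ∈ univ.filter (fun s : Finset (Fin g) => s ∩ T = S), F s =
      ∑ s ∈ A.powerset.filter (fun s => s ∩ T = S), F s +
      ∑ s ∈ univ.filter (fun s : Finset (Fin g) => s ∩ T = S ∧ ¬ s ⊆ A), F s := by
    rw [← sum_filter_add_sum_filter_not (univ.filter (fun s : Finset (Fin g) => s ∩ T = S))
      (fun s => s ⊆ A)]
    congr 1
    · refine sum_congr ?_ (fun _ _ => rfl)
      ext s
      simp only [mem_filter, mem_univ, true_and, mem_powerset]
      tauto
    · refine sum_congr ?_ (fun _ _ => rfl)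
      ext s
      simp only [mem_filter, mem_univ, true_and]
  have hbig : ∀ s ∈ univ.filter (fun s : Finset (Fin g) => s ∩ T = S ∧ ¬ s ⊆ A),
      ‖F s‖ ≤ Real.exp ((Real.pi * g ^ 2 + 2 * Real.pi * g ^ 3) * (η * t) - Λ * ξ * t) := by
    intro s hs
    rw [mem_filter] at hs
    obtain ⟨i, his, hiA⟩ := not_subset.1 hs.2.2
    have hcard : s.card ≤ g := by
      have := card_le_univ s
      rwa [Fintype.card_fin] at this
    have hcard' : (s.card : ℝ) ≤ g := by exact_mod_cast hcard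
    have hs0 : (0 : ℝ) ≤ (s.card : ℝ) := Nat.cast_nonneg _
    have hg0 : (0 : ℝ) ≤ g := Nat.cast_nonneg _
    -- the couplings
    have e1 : ‖Complex.exp (Q c s)‖ ≤ Real.exp (Real.pi * g ^ 2 * (η * t)) := by
      rw [Complex.norm_exp, Real.exp_le_exp, Q, Complex.re_sum]
      have f1 : ∀ i ∈ s, (∑ j ∈ s, c i j).re ≤ s.card * (Real.pi * (η * t)) := by
        intro i _
        rw [Complex.re_sum]
        refine (sum_le_sum (fun j _ => (le_abs_self _).trans (hcb i j))).trans ?_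
        rw [sum_const, nsmul_eq_mul]
      refine (sum_le_sum f1).trans ?_
      rw [sum_const, nsmul_eq_mul]
      have f2 : (s.card : ℝ) * s.card ≤ g ^ 2 := by nlinarith
      have f3 : 0 ≤ Real.pi * (η * t) := by positivity
      nlinarith
    -- the point
    have e2 : ‖∏ i ∈ s, u i‖ ≤ Real.exp (2 * Real.pi * g ^ 3 * (η * t) - Λ * ξ * t) := by
      rw [← mul_prod_erase s _ his, norm_mul, norm_prod]
      have f1 : ∏ j ∈ s.erase i, ‖u j‖ ≤
          ∏ j ∈ s.erase i, Real.exp (g * (2 * Real.pi * (η * t) * g)) :=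
        prod_le_prod (fun _ _ => norm_nonneg _) (fun j _ => hub j)
      rw [prod_const, ← Real.exp_nat_mul] at f1
      have f2 := hA i hiA
      refine (mul_le_mul f2 f1 (prod_nonneg (fun _ _ => norm_nonneg _)) (Real.exp_pos _).le).trans ?_
      rw [← Real.exp_add, Real.exp_le_exp]
      have f3 : ((s.erase i).card : ℝ) ≤ g := by
        have : (s.erase i).card ≤ g := (card_erase_le).trans hcard
        exact_mod_cast this
      have f4 : 0 ≤ (g : ℝ) * (2 * Real.pi * (η * t) * g) := by positivity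
      have f5 := mul_le_mul_of_nonneg_right f3 f4
      nlinarith
    simp only [hF]
    rw [norm_mul]
    refine (mul_le_mul e1 e2 (norm_nonneg _) (Real.exp_pos _).le).trans (le_of_eq ?_)
    rw [← Real.exp_add]
    congr 1
    ring
  have hbig2 : ‖∑ s ∈ univ.filter (fun s : Finset (Fin g) => s ∩ T = S ∧ ¬ s ⊆ A), F s‖ ≤
      2 ^ g * Real.exp ((Real.pi * g ^ 2 + 2 * Real.pi * g ^ 3) * (η * t) - Λ * ξ * t) := by
    refine (norm_sum_le _ _).trans ((sum_le_sum hbig).trans ?_)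
    rw [sum_const, nsmul_eq_mul]
    refine mul_le_mul_of_nonneg_right ?_ (Real.exp_pos _).le
    have e1 : (univ.filter (fun s : Finset (Fin g) => s ∩ T = S ∧ ¬ s ⊆ A)).card ≤ 2 ^ g := by
      refine (card_filter_le _ _).trans ?_
      rw [card_univ, Fintype.card_finset, Fintype.card_fin]
    exact_mod_cast e1
  have hfin : ∑ s ∈ A.powerset.filter (fun s => s ∩ T = S), F s =
      -(∑ s ∈ univ.filter (fun s : Finset (Fin g) => s ∩ T = S ∧ ¬ s ⊆ A), F s) -
        ∑' n : {n // n ∉ R}, f n := by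
    rw [h2, hsplit] at h1
    linear_combination h1
  have hgoal : ∑ s ∈ A.powerset.filter (fun s => s ∩ T = S),
      Complex.exp (Q c s) * ∏ i ∈ s, u i = ∑ s ∈ A.powerset.filter (fun s => s ∩ T = S), F s := rfl
  rw [hgoal, hfin]
  refine (norm_sub_le _ _).trans ?_
  rw [norm_neg]
  exact add_le_add hbig2 h3

end Pool.TH
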