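import Pool.Agent.Work.MP_29fd3c_th.Der
import Pool.Agent.Work.MP_29fd3c_th.Comb

/-!
# Normalization of the theta series near the boundary
-/

set_option autoImplicit false

namespace Pool.TH

open Finset Complex

variable {g : ℕ}

theorem quad_eq (τ : Matrix (Fin g) (Fin g) ℂ) (v : Fin g → ℂ) :
    dotProduct v (τ.mulVec v) = ∑ i, ∑ j, v i * v j * τ i j := by
  simp only [dotProduct, Matrix.mulVec, mul_sum]
  exact sum_congr rfl (fun i _ => sum_congr rfl (fun j _ => by ring))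

theorem norm_term (τ : Matrix (Fin g) (Fin g) ℂ) (z : Fin g → ℂ) (n : Fin g → ℤ) :
    ‖term τ z n‖ = Real.exp (-(Real.pi * (∑ i, ∑ j, (n i : ℝ) * (n j : ℝ) * (τ i j).im) +
      2 * Real.pi * ∑ i, (n i : ℝ) * (z i).im)) := by
  rw [term, Complex.norm_exp, quad_eq]
  congr 1
  have h1 : (∑ i, ∑ j, (n i : ℂ) * (n j : ℂ) * τ i j).im =
      ∑ i, ∑ j, (n i : ℝ) * (n j : ℝ) * (τ i j).im := by
    rw [Complex.im_sum]
    refine sum_congr rfl (fun i _ => ?_)
    rw [Complex.im_sum]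
    refine sum_congr rfl (fun j _ => ?_)
    simp [Complex.mul_im, Complex.mul_re]
  have h2 : (dotProduct (fun i => (n i : ℂ)) z).im = ∑ i, (n i : ℝ) * (z i).im := by
    rw [dotProduct, Complex.im_sum]
    refine sum_congr rfl (fun i _ => ?_)
    simp [Complex.mul_im]
  rw [Complex.add_re]
  have h3 : ∀ x : ℂ, (Real.pi * Complex.I * x).re = -(Real.pi * x.im) := by
    intro x; simp [Complex.mul_re]
  have h4 : ∀ x : ℂ, (2 * Real.pi * Complex.I * x).re = -(2 * Real.pi * x.im) := by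
    intro x; simp [Complex.mul_re]
  rw [h3, h4, h1, h2]
  ring

theorem term_ne (τ : Matrix (Fin g) (Fin g) ℂ) (z : Fin g → ℂ) (n : Fin g → ℤ) :
    term τ z n ≠ 0 := Complex.exp_ne_zero _

/-- translation of the index -/
theorem term_shift {τ : Matrix (Fin g) (Fin g) ℂ} (hτ : τ.transpose = τ) (z : Fin g → ℂ)
    (a n : Fin g → ℤ) :
    term τ z (a + n) = term τ z a * term τ (z + τ.mulVec (fun i => (a i : ℂ))) n := by
  have hsym : ∀ i j, τ i j = τ j i := fun i j => by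
    conv_lhs => rw [← hτ]
    rfl
  rw [term, term, term, ← Complex.exp_add, quad_eq, quad_eq, quad_eq]
  congr 1
  have h1 : ∑ i, ∑ j, (((a + n) i : ℤ) : ℂ) * (((a + n) j : ℤ) : ℂ) * τ i j =
      ∑ i, ∑ j, (a i : ℂ) * (a j : ℂ) * τ i j + ∑ i, ∑ j, (n i : ℂ) * (n j : ℂ) * τ i j +
      2 * ∑ i, ∑ j, (n i : ℂ) * (a j : ℂ) * τ i j := by
    have h2 : ∑ i, ∑ j, (n i : ℂ) * (a j : ℂ) * τ i j = ∑ i, ∑ j, (a i : ℂ) * (n j : ℂ) * τ i j := by
      rw [sum_comm]
      exact sum_congr rfl (fun i _ => sum_congr rfl (fun j _ => by rw [hsym j i]; ring))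
    rw [two_mul]
    nth_rewrite 2 [h2]
    simp only [← sum_add_distrib]
    refine sum_congr rfl (fun i _ => sum_congr rfl (fun j _ => ?_))
    simp only [Pi.add_apply, Int.cast_add]
    ring
  have h3 : dotProduct (fun i => (n i : ℂ)) (τ.mulVec fun i => (a i : ℂ)) =
      ∑ i, ∑ j, (n i : ℂ) * (a j : ℂ) * τ i j := by
    simp only [dotProduct, Matrix.mulVec, mul_sum]
    exact sum_congr rfl (fun i _ => sum_congr rfl (fun j _ => by ring))
  have h4 : dotProduct (fun i => (((a + n) i : ℤ) : ℂ)) z =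
      dotProduct (fun i => (a i : ℂ)) z + dotProduct (fun i => (n i : ℂ)) z := by
    simp only [dotProduct, ← sum_add_distrib]
    refine sum_congr rfl (fun i _ => ?_)
    simp only [Pi.add_apply, Int.cast_add]
    ring
  rw [h1, h4, dotProduct_add, h3]
  ring

/-- off-diagonal terms are small -/
theorem off_bound {M : Fin g → Fin g → ℝ} {C : ℝ} (hC : 0 ≤ C)
    (hM : ∀ i j, i ≠ j → |M i j| ≤ C) (n : Fin g → ℤ) (y : Fin g → ℝ) (hy : ∀ i, |y i| ≤ 1 / 2) :
    |∑ i, ∑ j, (if i = j then 0 else M i j * ((n i : ℝ) * (n j : ℝ) + 2 * (n i : ℝ) * y j))| ≤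
      2 * C * g * ∑ i, (n i : ℝ) ^ 2 := by
  have h0 : ∀ k : ℤ, |(k : ℝ)| ≤ (k : ℝ) ^ 2 := by
    intro k
    have h1 : |k| ≤ k ^ 2 := by
      rw [← sq_abs]
      rcases eq_or_ne k 0 with rfl | hk
      · simp
      · have : 1 ≤ |k| := Int.one_le_abs hk
        nlinarith
    exact_mod_cast h1
  have h1 : ∀ i j : Fin g, |(if i = j then 0 else M i j *
      ((n i : ℝ) * (n j : ℝ) + 2 * (n i : ℝ) * y j))| ≤
      C * ((n i : ℝ) ^ 2 / 2 + (n j : ℝ) ^ 2 / 2 + (n i : ℝ) ^ 2) := by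
    intro i j
    split_ifs with hij
    · rw [abs_zero]; positivity
    · rw [abs_mul]
      refine mul_le_mul (hM i j hij) ?_ (abs_nonneg _) hC
      refine (abs_add_le _ _).trans ?_
      refine add_le_add ?_ ?_
      · rw [abs_mul]
        nlinarith [sq_nonneg (|(n i : ℝ)| - |(n j : ℝ)|), sq_abs (n i : ℝ), sq_abs (n j : ℝ)]
      · rw [abs_mul, abs_mul, abs_two]
        have := h0 (n i)
        have h2 := hy j
        have h3 := abs_nonneg (n i : ℝ)
        nlinarith [abs_nonneg (y j)]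
  refine (abs_sum_le_sum_abs _ _).trans ?_
  refine (sum_le_sum (fun i _ => abs_sum_le_sum_abs _ _)).trans ?_
  refine (sum_le_sum (fun i _ => sum_le_sum (fun j _ => h1 i j))).trans ?_
  have h2 : ∑ i : Fin g, ∑ j : Fin g, C * ((n i : ℝ) ^ 2 / 2 + (n j : ℝ) ^ 2 / 2 + (n i : ℝ) ^ 2) =
      2 * C * g * ∑ i, (n i : ℝ) ^ 2 := by
    have h3 : ∀ i : Fin g, ∑ j : Fin g,
        C * ((n i : ℝ) ^ 2 / 2 + (n j : ℝ) ^ 2 / 2 + (n i : ℝ) ^ 2) =
        C * (g * (3 / 2 * (n i : ℝ) ^ 2) + (∑ j, (n j : ℝ) ^ 2) / 2) := by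
      intro i
      rw [← mul_sum]
      congr 1
      simp only [sum_add_distrib, sum_const, card_univ, Fintype.card_fin, nsmul_eq_mul, ← sum_div]
      ring
    simp only [h3]
    rw [← mul_sum, sum_add_distrib, ← mul_sum, ← mul_sum, sum_const, card_univ, Fintype.card_fin,
      nsmul_eq_mul]
    ring
  rw [h2]

/-- good convergence -/
theorem dom_of_large {τ : Matrix (Fin g) (Fin g) ℂ} {C T : ℝ} (hC : 0 ≤ C)
    (hoff : ∀ i j, i ≠ j → |(τ i j).im| ≤ C) (hT : ∀ i, T ≤ (τ i i).im) (hTC : 2 * C * g < T)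
    (z : Fin g → ℂ) : Dom τ z := by
  intro B
  set b : ℝ := 2 * Real.pi * (∑ i, |(z i).im|) + B + 1 with hb
  set lam : ℝ := Real.pi * (T - 2 * C * g) with hlam
  have hlam0 : 0 < lam := mul_pos Real.pi_pos (by linarith)
  refine Summable.of_nonneg_of_le (fun n => by positivity) (fun n => ?_)
    ((summable_exp_N1 g).mul_left (Real.exp (g * (b ^ 2 / (4 * lam)))))
  rw [norm_term, ← Real.exp_add, ← Real.exp_add, Real.exp_le_exp]
  -- the quadratic part
  have h1 : (T - 2 * C * g) * ∑ i, (n i : ℝ) ^ 2 ≤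
      ∑ i, ∑ j, (n i : ℝ) * (n j : ℝ) * (τ i j).im := by
    have h2 := off_bound hC hoff n (fun _ => 0) (fun _ => by norm_num)
    have h3 : ∑ i, ∑ j, (n i : ℝ) * (n j : ℝ) * (τ i j).im =
        ∑ i, (n i : ℝ) ^ 2 * (τ i i).im + ∑ i, ∑ j, (if i = j then 0 else (τ i j).im *
          ((n i : ℝ) * (n j : ℝ) + 2 * (n i : ℝ) * 0)) := by
      rw [← sum_add_distrib]
      refine sum_congr rfl (fun i _ => ?_)
      rw [← add_sum_erase univ _ (mem_univ i)]
      rw [← add_sum_erase univ (fun j => if i = j then 0 else (τ i j).im *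
          ((n i : ℝ) * (n j : ℝ) + 2 * (n i : ℝ) * 0)) (mem_univ i)]
      simp only [if_true, zero_add]
      congr 1
      · ring
      · refine sum_congr rfl (fun j hj => ?_)
        rw [if_neg (ne_of_mem_erase hj).symm]
        ring
    have h4 : T * ∑ i, (n i : ℝ) ^ 2 ≤ ∑ i, (n i : ℝ) ^ 2 * (τ i i).im := by
      rw [mul_sum]
      refine sum_le_sum (fun i _ => ?_)
      rw [mul_comm]
      exact mul_le_mul_of_nonneg_left (hT i) (sq_nonneg _)
    have h5 := neg_abs_le (∑ i, ∑ j, (if i = j then 0 else (τ i j).im *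
          ((n i : ℝ) * (n j : ℝ) + 2 * (n i : ℝ) * 0)))
    rw [h3]
    linarith
  -- the linear part
  have h2 : -(2 * Real.pi * ∑ i, (n i : ℝ) * (z i).im) ≤
      (2 * Real.pi * (∑ i, |(z i).im|)) * N1 n := by
    have h3 : |∑ i, (n i : ℝ) * (z i).im| ≤ (∑ i, |(z i).im|) * N1 n := by
      refine (abs_sum_le_sum_abs _ _).trans ?_
      rw [N1, mul_sum]
      refine sum_le_sum (fun i _ => ?_)
      rw [abs_mul, mul_comm]
      exact mul_le_mul_of_nonneg_right (single_le_sum (f := fun i => |(z i).im|)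
        (fun _ _ => abs_nonneg _) (mem_univ i)) (abs_nonneg _)
    have h4 := neg_abs_le (∑ i, (n i : ℝ) * (z i).im)
    have h5 := Real.pi_pos
    nlinarith
  have h3 : ∀ i : Fin g, b * |(n i : ℝ)| ≤ lam * (n i : ℝ) ^ 2 + b ^ 2 / (4 * lam) := by
    intro i
    have h4 : 0 ≤ (2 * lam * |(n i : ℝ)| - b) ^ 2 / (4 * lam) := by positivity
    have h5 : (2 * lam * |(n i : ℝ)| - b) ^ 2 / (4 * lam) =
        lam * (n i : ℝ) ^ 2 + b ^ 2 / (4 * lam) - b * |(n i : ℝ)| := by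
      rw [← sq_abs (n i : ℝ)]
      field_simp
      ring
    linarith
  have h4 : b * N1 n ≤ lam * ∑ i, (n i : ℝ) ^ 2 + g * (b ^ 2 / (4 * lam)) := by
    rw [N1, mul_sum, mul_sum]
    refine (sum_le_sum (fun i _ => h3 i)).trans ?_
    rw [sum_add_distrib, sum_const, card_univ, Fintype.card_fin, nsmul_eq_mul]
  have h5 : lam * ∑ i, (n i : ℝ) ^ 2 ≤
      Real.pi * ∑ i, ∑ j, (n i : ℝ) * (n j : ℝ) * (τ i j).im := by
    rw [hlam, mul_assoc]
    exact mul_le_mul_of_nonneg_left h1 Real.pi_pos.le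
  rw [hb] at h4
  rw [hb]
  linarith

end Pool.TH
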