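import Pool.Agent.Work.MP_29fd3c_th.Norm

/-!
# The normalized series
-/

set_option autoImplicit false

namespace Pool.TH

open Finset Complex

variable {g : ℕ}

/-- the indicator of `s` -/
def ind (s : Finset (Fin g)) : Fin g → ℤ := fun i => if i ∈ s then 1 else 0

/-- the bound for one coordinate -/
noncomputable def psi (C T : ℝ) (g : ℕ) (k : ℤ) : ℝ :=
  if k = 0 ∨ k = 1 then 2 * Real.pi * C * g
  else -((Real.pi * T / 2 - 2 * Real.pi * C * g) * (k : ℝ) ^ 2)

theorem even_sum {r : Fin g → Fin g → ℤ} (hd : ∀ i, r i i = 0) (hs : ∀ i j, r i j = r j i)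
    (s : Finset (Fin g)) : ∃ k : ℤ, ∑ i ∈ s, ∑ j ∈ s, r i j = 2 * k := by
  induction s using Finset.induction_on with
  | empty => exact ⟨0, by simp⟩
  | insert v s hv ih =>
    obtain ⟨k, hk⟩ := ih
    refine ⟨k + ∑ j ∈ s, r v j, ?_⟩
    rw [sum_insert hv, sum_insert hv, hd]
    have h1 : ∀ i ∈ s, ∑ j ∈ insert v s, r i j = r i v + ∑ j ∈ s, r i j := by
      intro i _
      rw [sum_insert hv]
    rw [sum_congr rfl h1, sum_add_distrib, hk]
    have h2 : ∑ i ∈ s, r i v = ∑ i ∈ s, r v i := sum_congr rfl (fun i _ => hs _ _)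
    rw [h2]
    ring

theorem coord_bound {C T t y : ℝ} {σ k : ℤ} (hC : 0 ≤ C) (hT0 : 0 ≤ T) (hT : T ≤ t)
    (hy : |y| ≤ 1 / 2) (hσ : σ = 1 ∨ σ = -1) (hσy : (σ : ℝ) * y ≤ 0) :
    -(Real.pi * (t * (((σ * k : ℤ) : ℝ) ^ 2 + 2 * ((σ * k : ℤ) : ℝ) * y))) +
      Real.pi * (2 * C * g * ((σ * k : ℤ) : ℝ) ^ 2) ≤ psi C T g k := by
  have hπ := Real.pi_pos
  have h1 : ((σ * k : ℤ) : ℝ) ^ 2 = (k : ℝ) ^ 2 := by
    rcases hσ with rfl | rfl <;> push_cast <;> ring
  have h2 : ((σ * k : ℤ) : ℝ) * y = -((k : ℝ) * |y|) := by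
    have h3 : (σ : ℝ) * y = -|y| := by
      rcases hσ with rfl | rfl
      · have : y ≤ 0 := by simpa using hσy
        rw [abs_of_nonpos this]; push_cast; ring
      · have : 0 ≤ y := by simpa using hσy
        rw [abs_of_nonneg this]; push_cast; ring
    push_cast
    linear_combination (k : ℝ) * h3
  have h4 : 2 * ((σ * k : ℤ) : ℝ) * y = -(2 * (k : ℝ) * |y|) := by
    linear_combination 2 * h2
  rw [h1, h4, psi]
  have hy0 := abs_nonneg y
  have ht : 0 ≤ t := hT0.trans hT
  split_ifs with hk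
  · rcases hk with rfl | rfl
    · push_cast
      have : 0 ≤ 2 * Real.pi * C * g := by positivity
      nlinarith
    · push_cast
      have h5 : 0 ≤ Real.pi * (t * (1 - 2 * |y|)) := by
        refine mul_nonneg hπ.le (mul_nonneg ht (by linarith))
      nlinarith
  · push Not at hk
    -- `k ^ 2 / 2 ≤ k ^ 2 - 2 k |y|`
    have h5 : (k : ℝ) ^ 2 / 2 ≤ (k : ℝ) ^ 2 + -(2 * (k : ℝ) * |y|) := by
      rcases lt_or_ge k 0 with hneg | hpos
      · have : (k : ℝ) < 0 := by exact_mod_cast hneg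
        nlinarith [sq_nonneg (k : ℝ)]
      · have h6 : 2 ≤ k := by
          rcases hk with ⟨h0, h1⟩
          omega
        have h7 : (2 : ℝ) ≤ (k : ℝ) := by exact_mod_cast h6
        nlinarith
    have h6 : T * ((k : ℝ) ^ 2 / 2) ≤ t * ((k : ℝ) ^ 2 + -(2 * (k : ℝ) * |y|)) :=
      mul_le_mul hT h5 (by positivity) ht
    have h7 := mul_le_mul_of_nonneg_left h6 hπ.le
    nlinarith

theorem normal2 {τ : Matrix (Fin g) (Fin g) ℂ} (hτ : τ.transpose = τ)
    (hpos : (τ.map Complex.im).PosDef) {C T δ : ℝ} (hC : 0 ≤ C) (hT0 : 0 ≤ T) (hδ : 0 ≤ δ)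
    (hoff : ∀ i j, i ≠ j → |(τ i j).im| ≤ C) (hT : ∀ i, T ≤ (τ i i).im)
    {p : Fin g → Fin g}
    (hp : ∀ i, p i ≠ i → δ ≤ ‖Complex.exp (2 * Real.pi * Complex.I * τ i (p i)) - 1‖)
    (z : Fin g → ℂ) {N : ℕ}
    (hvan : ∀ S : Finset (Fin g), S.card ≤ N → ∀ α β : Fin g → ℂ,
      ∑' n : Fin g → ℤ, (∏ i ∈ S, (α i + β i * (n i : ℂ))) * term τ z n = 0) :
    ∃ (c : Fin g → Fin g → ℂ) (u : Fin g → ℂ) (G : (Fin g → ℤ) → ℂ),
      Sym c ∧ (∀ i j, |(c i j).re| ≤ Real.pi * C) ∧
      (∀ i, ‖u i‖ ≤ Real.exp (g * (2 * Real.pi * C * g))) ∧ (∀ i, u i ≠ 0) ∧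
      (∀ i, p i ≠ i → δ * Real.exp (-(2 * Real.pi * C)) ≤ ‖w c i (p i) - 1‖) ∧
      (∀ s : Finset (Fin g), G (ind s) = Complex.exp (Q c s) * ∏ i ∈ s, u i) ∧
      (∀ n, ‖G n‖ ≤ Real.exp (∑ i, psi C T g (n i))) ∧
      (∀ S : Finset (Fin g), S.card ≤ N → ∀ α β : Fin g → ℂ,
        ∑' n : Fin g → ℤ, (∏ i ∈ S, (α i + β i * (n i : ℂ))) * G n = 0) := by
  classical
  have hsym : ∀ i j, τ i j = τ j i := fun i j => by
    conv_lhs => rw [← hτ]
    rfl
  set M : Matrix (Fin g) (Fin g) ℝ := τ.map Complex.im with hM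
  have hMij : ∀ i j, M i j = (τ i j).im := fun i j => rfl
  set y0 : Fin g → ℝ := M⁻¹.mulVec (fun i => (z i).im) with hy0
  have hMy0 : M.mulVec y0 = fun i => (z i).im := by
    rw [hy0, Matrix.mulVec_mulVec, Matrix.mul_nonsing_inv _ ((Matrix.isUnit_iff_isUnit_det _).1
      hpos.isUnit), Matrix.one_mulVec]
  set a : Fin g → ℤ := fun i => -round (y0 i) with ha
  set y : Fin g → ℝ := fun i => y0 i + (a i : ℝ) with hy
  have hyb : ∀ i, |y i| ≤ 1 / 2 := by
    intro i
    rw [hy, ha]
    have := abs_sub_round (y0 i)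
    simpa [sub_eq_add_neg] using this
  set σ : Fin g → ℤ := fun i => if y i ≤ 0 then 1 else -1 with hσ
  have hσ1 : ∀ i, σ i = 1 ∨ σ i = -1 := by
    intro i
    simp only [hσ]
    split_ifs
    · exact Or.inl rfl
    · exact Or.inr rfl
  have hσσ : ∀ i, σ i * σ i = 1 := by
    intro i
    rcases hσ1 i with h | h <;> rw [h] <;> norm_num
  have hσy : ∀ i, (σ i : ℝ) * y i ≤ 0 := by
    intro i
    simp only [hσ]
    split_ifs with h
    · simpa using h
    · push Not at h
      push_cast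
      linarith
  set z' : Fin g → ℂ := z + τ.mulVec (fun i => (a i : ℂ)) with hz'
  have hz'im : ∀ i, (z' i).im = ∑ j, M i j * y j := by
    intro i
    have h1 : (z i).im = ∑ j, M i j * y0 j := by
      have := congrFun hMy0 i
      rw [← this]
      rfl
    rw [hz', Pi.add_apply, Complex.add_im, h1]
    have h2 : ((τ.mulVec (fun i => (a i : ℂ))) i).im = ∑ j, M i j * (a j : ℝ) := by
      simp only [Matrix.mulVec, dotProduct]
      rw [Complex.im_sum]
      refine sum_congr rfl (fun j _ => ?_)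
      rw [hMij]
      simp [Complex.mul_im]
    rw [h2, ← sum_add_distrib]
    refine sum_congr rfl (fun j _ => ?_)
    rw [hy]
    ring
  set r : Fin g → Fin g → ℤ := fun i j =>
    if i = j then 0 else round (((σ i : ℝ) * (σ j : ℝ)) * (τ i j).re) with hr
  have hrd : ∀ i, r i i = 0 := fun i => by simp [hr]
  have hrs : ∀ i j, r i j = r j i := by
    intro i j
    simp only [hr]
    by_cases h : i = j
    · simp [h]
    · rw [if_neg h, if_neg (Ne.symm h), hsym i j, mul_comm (σ i : ℝ)]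
  set c : Fin g → Fin g → ℂ := fun i j => if i = j then 0 else
    Real.pi * Complex.I * ((σ i : ℂ) * (σ j : ℂ) * τ i j - (r i j : ℂ)) with hc
  have hcd : ∀ i, c i i = 0 := fun i => by simp [hc]
  have hcs : ∀ i j, c i j = c j i := by
    intro i j
    simp only [hc]
    by_cases h : i = j
    · simp [h]
    · rw [if_neg h, if_neg (Ne.symm h), hsym i j, hrs i j]
      ring
  set u : Fin g → ℂ := fun i => Complex.exp (Real.pi * Complex.I * τ i i +
    2 * Real.pi * Complex.I * ((σ i : ℂ) * z' i)) with hu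
  set G : (Fin g → ℤ) → ℂ := fun n => term τ z' (fun i => σ i * n i) with hG
  -- the value at indicators
  have hval : ∀ s : Finset (Fin g), G (ind s) = Complex.exp (Q c s) * ∏ i ∈ s, u i := by
    intro s
    simp only [hG, hu]
    rw [term, ← Complex.exp_sum, ← Complex.exp_add, quad_eq]
    obtain ⟨k, hk⟩ := even_sum hrd hrs s
    have h1 : ∑ i, ∑ j, (((σ i * ind s i : ℤ)) : ℂ) * (((σ j * ind s j : ℤ)) : ℂ) * τ i j =
        ∑ i ∈ s, ∑ j ∈ s, (σ i : ℂ) * (σ j : ℂ) * τ i j := by
      have h2 : ∀ i, ∑ j, (((σ i * ind s i : ℤ)) : ℂ) * (((σ j * ind s j : ℤ)) : ℂ) * τ i j =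
          if i ∈ s then ∑ j ∈ s, (σ i : ℂ) * (σ j : ℂ) * τ i j else 0 := by
        intro i
        split_ifs with hi
        · rw [← sum_subset (subset_univ s)]
          · refine sum_congr rfl (fun j hj => ?_)
            simp [ind, hi, hj]
          · intro j _ hj
            simp [ind, hj]
        · refine sum_eq_zero (fun j _ => ?_)
          simp [ind, hi]
      simp only [h2]
      rw [sum_ite_mem, univ_inter]
    have h3 : dotProduct (fun i => (((σ i * ind s i : ℤ)) : ℂ)) z' =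
        ∑ i ∈ s, (σ i : ℂ) * z' i := by
      simp only [dotProduct]
      rw [← sum_subset (subset_univ s)]
      · refine sum_congr rfl (fun i hi => ?_)
        simp [ind, hi]
      · intro i _ hi
        simp [ind, hi]
    rw [h1, h3]
    have h4 : Real.pi * Complex.I * ∑ i ∈ s, ∑ j ∈ s, (σ i : ℂ) * (σ j : ℂ) * τ i j =
        Q c s + ∑ i ∈ s, Real.pi * Complex.I * τ i i + (k : ℂ) * (2 * Real.pi * Complex.I) := by
      have h5 : (k : ℂ) * (2 * Real.pi * Complex.I) =
          ∑ i ∈ s, ∑ j ∈ s, Real.pi * Complex.I * (r i j : ℂ) := by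
        have h6 : ((∑ i ∈ s, ∑ j ∈ s, r i j : ℤ) : ℂ) = 2 * (k : ℂ) := by
          rw [hk]; push_cast; ring
        push_cast at h6
        simp only [← mul_sum]
        rw [h6]
        ring
      have h7 : ∑ i ∈ s, Real.pi * Complex.I * τ i i =
          ∑ i ∈ s, ∑ j ∈ s, (if i = j then Real.pi * Complex.I * τ i i else 0) := by
        refine sum_congr rfl (fun i hi => ?_)
        rw [sum_ite_eq, if_pos hi]
      rw [h5, h7, Q, mul_sum, ← sum_add_distrib, ← sum_add_distrib]
      refine sum_congr rfl (fun i _ => ?_)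
      rw [mul_sum, ← sum_add_distrib, ← sum_add_distrib]
      refine sum_congr rfl (fun j _ => ?_)
      by_cases h : i = j
      · subst h
        have h8 : (σ i : ℂ) * (σ i : ℂ) = 1 := by exact_mod_cast hσσ i
        simp only [hc, if_true, hrd, h8]
        push_cast
        ring
      · simp only [hc, if_neg h]
        ring
    have h9 : Real.pi * Complex.I * ∑ i ∈ s, ∑ j ∈ s, (σ i : ℂ) * (σ j : ℂ) * τ i j +
        2 * Real.pi * Complex.I * ∑ i ∈ s, (σ i : ℂ) * z' i =
        (Q c s + ∑ i ∈ s, (Real.pi * Complex.I * τ i i +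
          2 * Real.pi * Complex.I * ((σ i : ℂ) * z' i))) + (k : ℂ) * (2 * Real.pi * Complex.I) := by
      rw [h4, sum_add_distrib, ← mul_sum s (fun i => (σ i : ℂ) * z' i)]
      ring
    rw [h9, Complex.exp_add, Complex.exp_int_mul_two_pi_mul_I, mul_one]
  -- the bound
  have hbound : ∀ n, ‖G n‖ ≤ Real.exp (∑ i, psi C T g (n i)) := by
    intro n
    simp only [hG]
    rw [norm_term, Real.exp_le_exp]
    set m : Fin g → ℤ := fun i => σ i * n i with hm
    have h1 : Real.pi * (∑ i, ∑ j, (m i : ℝ) * (m j : ℝ) * (τ i j).im) +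
        2 * Real.pi * ∑ i, (m i : ℝ) * (z' i).im =
        Real.pi * ∑ i, (τ i i).im * ((m i : ℝ) ^ 2 + 2 * (m i : ℝ) * y i) +
        Real.pi * ∑ i, ∑ j, (if i = j then 0 else M i j *
          ((m i : ℝ) * (m j : ℝ) + 2 * (m i : ℝ) * y j)) := by
      have h2 : Real.pi * (∑ i, ∑ j, (m i : ℝ) * (m j : ℝ) * (τ i j).im) +
          2 * Real.pi * ∑ i, (m i : ℝ) * (z' i).im =
          Real.pi * ∑ i, ∑ j, M i j * ((m i : ℝ) * (m j : ℝ) + 2 * (m i : ℝ) * y j) := by
        have h3 : ∑ i, (m i : ℝ) * (z' i).im = ∑ i, ∑ j, (m i : ℝ) * (M i j * y j) := by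
          refine sum_congr rfl (fun i _ => ?_)
          rw [hz'im i, mul_sum]
        rw [h3]
        have h4 : ∑ i, ∑ j, M i j * ((m i : ℝ) * (m j : ℝ) + 2 * (m i : ℝ) * y j) =
            (∑ i, ∑ j, (m i : ℝ) * (m j : ℝ) * (τ i j).im) +
            2 * ∑ i, ∑ j, (m i : ℝ) * (M i j * y j) := by
          rw [mul_sum, ← sum_add_distrib]
          refine sum_congr rfl (fun i _ => ?_)
          rw [mul_sum, ← sum_add_distrib]
          refine sum_congr rfl (fun j _ => ?_)
          rw [hMij]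
          ring
        rw [h4]
        ring
      rw [h2, ← mul_add, ← sum_add_distrib]
      congr 1
      refine sum_congr rfl (fun i _ => ?_)
      rw [← add_sum_erase univ _ (mem_univ i)]
      rw [← add_sum_erase univ (fun j => if i = j then 0 else M i j *
          ((m i : ℝ) * (m j : ℝ) + 2 * (m i : ℝ) * y j)) (mem_univ i)]
      simp only [if_true, zero_add]
      congr 1
      · rw [hMij]; ring
      · refine sum_congr rfl (fun j hj => ?_)
        rw [if_neg (ne_of_mem_erase hj).symm]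
    have h5 := off_bound (M := fun i j => M i j) hC hoff m y hyb
    have h6 := neg_abs_le (∑ i, ∑ j, (if i = j then 0 else M i j *
          ((m i : ℝ) * (m j : ℝ) + 2 * (m i : ℝ) * y j)))
    have h7 : -(Real.pi * ∑ i, ∑ j, (if i = j then 0 else M i j *
          ((m i : ℝ) * (m j : ℝ) + 2 * (m i : ℝ) * y j))) ≤
        Real.pi * (2 * C * g * ∑ i, (m i : ℝ) ^ 2) := by
      have := Real.pi_pos
      nlinarith
    have h8 : ∀ i ∈ (univ : Finset (Fin g)),
        -(Real.pi * ((τ i i).im * ((m i : ℝ) ^ 2 + 2 * (m i : ℝ) * y i))) +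
        Real.pi * (2 * C * g * (m i : ℝ) ^ 2) ≤ psi C T g (n i) := fun i _ =>
      coord_bound hC hT0 (hT i) (hyb i) (hσ1 i) (hσy i)
    have h9 := sum_le_sum h8
    rw [sum_add_distrib, sum_neg_distrib, ← mul_sum, ← mul_sum, ← mul_sum] at h9
    rw [h1]
    linarith
  refine ⟨c, u, G, ⟨hcd, hcs⟩, ?_, ?_, fun i => Complex.exp_ne_zero _, ?_, hval, hbound, ?_⟩
  · -- the couplings are bounded
    intro i j
    simp only [hc]
    split_ifs with hij
    · rw [Complex.zero_re, abs_zero]
      have := Real.pi_pos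
      positivity
    · have h1 : (Real.pi * Complex.I * ((σ i : ℂ) * (σ j : ℂ) * τ i j - (r i j : ℂ))).re =
          -(Real.pi * (((σ i : ℝ) * (σ j : ℝ)) * (τ i j).im)) := by
        simp [Complex.mul_re, Complex.mul_im]
      rw [h1, abs_neg, abs_mul, abs_of_pos Real.pi_pos]
      refine mul_le_mul_of_nonneg_left ?_ Real.pi_pos.le
      rcases hσ1 i with h | h <;> rcases hσ1 j with h' | h' <;> rw [h, h'] <;>
        simpa using hoff i j hij
  · -- the point is bounded
    intro i
    have h1 := hval {i}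
    have h2 : G (ind {i}) = u i := by
      rw [h1]
      simp [Q, hcd]
    rw [← h2]
    refine (hbound _).trans ?_
    rw [Real.exp_le_exp]
    have h3 : ∀ j ∈ (univ : Finset (Fin g)), psi C T g (ind {i} j) = 2 * Real.pi * C * g := by
      intro j _
      rw [psi, if_pos]
      simp only [ind, mem_singleton]
      split_ifs
      · exact Or.inr rfl
      · exact Or.inl rfl
    rw [sum_congr rfl h3, sum_const, card_univ, Fintype.card_fin, nsmul_eq_mul]
  · -- the matched couplings
    intro i hi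
    have hne : i ≠ p i := fun h => hi h.symm
    set W : ℂ := Complex.exp (2 * Real.pi * Complex.I * τ i (p i)) with hW
    have hW0 : W ≠ 0 := Complex.exp_ne_zero _
    have hd := hp i hi
    have h1 : w c i (p i) =
        Complex.exp (2 * Real.pi * Complex.I * ((σ i : ℂ) * (σ (p i) : ℂ) * τ i (p i))) := by
      simp only [w, hc, if_neg hne]
      have h2 : (2 : ℂ) * (Real.pi * Complex.I *
          ((σ i : ℂ) * (σ (p i) : ℂ) * τ i (p i) - (r i (p i) : ℂ))) =
          2 * Real.pi * Complex.I * ((σ i : ℂ) * (σ (p i) : ℂ) * τ i (p i)) +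
          ((-r i (p i) : ℤ) : ℂ) * (2 * Real.pi * Complex.I) := by
        push_cast
        ring
      rw [h2, Complex.exp_add, Complex.exp_int_mul_two_pi_mul_I, mul_one]
    have he1 : Real.exp (-(2 * Real.pi * C)) ≤ 1 := by
      rw [Real.exp_le_one_iff]
      have := Real.pi_pos
      have : 0 ≤ 2 * Real.pi * C := by positivity
      linarith
    have hpl : δ * Real.exp (-(2 * Real.pi * C)) ≤ ‖W - 1‖ :=
      (mul_le_of_le_one_right hδ he1).trans hd
    have hWn : ‖W‖ ≤ Real.exp (2 * Real.pi * C) := by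
      rw [hW, Complex.norm_exp, Real.exp_le_exp]
      have h3 : (2 * Real.pi * Complex.I * τ i (p i)).re = -(2 * Real.pi * (τ i (p i)).im) := by
        simp [Complex.mul_re]
      rw [h3]
      have h4 := neg_abs_le (τ i (p i)).im
      have h5 := hoff i (p i) hne
      have := Real.pi_pos
      nlinarith
    have hmi : δ * Real.exp (-(2 * Real.pi * C)) ≤ ‖W⁻¹ - 1‖ := by
      have h3 : W⁻¹ - 1 = -(W - 1) / W := by field_simp; ring
      rw [h3, norm_div, norm_neg, le_div_iff₀ (norm_pos_iff.2 hW0)]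
      refine le_trans ?_ hd
      rw [mul_assoc]
      refine mul_le_of_le_one_right hδ ?_
      calc Real.exp (-(2 * Real.pi * C)) * ‖W‖
          ≤ Real.exp (-(2 * Real.pi * C)) * Real.exp (2 * Real.pi * C) :=
            mul_le_mul_of_nonneg_left hWn (Real.exp_pos _).le
        _ = 1 := by rw [← Real.exp_add]; simp
    have hneg : Complex.exp (2 * Real.pi * Complex.I * (-(1 : ℂ) * τ i (p i))) = W⁻¹ := by
      rw [hW, ← Complex.exp_neg]
      congr 1
      ring
    have hposi : Complex.exp (2 * Real.pi * Complex.I * ((1 : ℂ) * τ i (p i))) = W := by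
      rw [one_mul]
    rw [h1]
    rcases hσ1 i with h | h <;> rcases hσ1 (p i) with h' | h' <;> rw [h, h']
    · have : ((1 : ℤ) : ℂ) * ((1 : ℤ) : ℂ) = 1 := by push_cast; ring
      rw [this, hposi]; exact hpl
    · have : ((1 : ℤ) : ℂ) * ((-1 : ℤ) : ℂ) = -1 := by push_cast; ring
      rw [this, hneg]; exact hmi
    · have : ((-1 : ℤ) : ℂ) * ((1 : ℤ) : ℂ) = -1 := by push_cast; ring
      rw [this, hneg]; exact hmi
    · have : ((-1 : ℤ) : ℂ) * ((-1 : ℤ) : ℂ) = 1 := by push_cast; ring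
      rw [this, hposi]; exact hpl
  · -- vanishing
    intro S hS α β
    have h1 := hvan S hS (fun i => α i - β i * (σ i : ℂ) * (a i : ℂ)) (fun i => β i * (σ i : ℂ))
    -- the change of the index
    let e : (Fin g → ℤ) ≃ (Fin g → ℤ) :=
      { toFun := fun n => a + fun i => σ i * n i
        invFun := fun n => fun i => σ i * (n i - a i)
        left_inv := by
          intro n
          funext i
          simp only [Pi.add_apply]
          rw [add_sub_cancel_left, ← mul_assoc, hσσ, one_mul]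
        right_inv := by
          intro n
          funext i
          simp only [Pi.add_apply]
          rw [← mul_assoc, hσσ, one_mul]
          ring }
    rw [← e.tsum_eq] at h1
    have h2 : ∀ n : Fin g → ℤ,
        (∏ i ∈ S, ((α i - β i * (σ i : ℂ) * (a i : ℂ)) + β i * (σ i : ℂ) * ((e n i : ℤ) : ℂ))) *
          term τ z (e n) =
        term τ z a * ((∏ i ∈ S, (α i + β i * (n i : ℂ))) * G n) := by
      intro n
      have h3 : term τ z (e n) = term τ z a * G n := term_shift hτ z a (fun i => σ i * n i)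
      have h4 : ∀ i ∈ S, (α i - β i * (σ i : ℂ) * (a i : ℂ)) +
          β i * (σ i : ℂ) * ((e n i : ℤ) : ℂ) = α i + β i * (n i : ℂ) := by
        intro i _
        have h5 : (e n i : ℤ) = a i + σ i * n i := rfl
        have h6 : (σ i : ℂ) * (σ i : ℂ) = 1 := by exact_mod_cast hσσ i
        rw [h5]
        push_cast
        linear_combination (β i * (n i : ℂ)) * h6
      rw [prod_congr rfl h4, h3]
      ring
    simp only [h2] at h1
    rw [tsum_mul_left] at h1
    exact (mul_eq_zero.1 h1).resolve_left (term_ne _ _ _)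

end Pool.TH
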