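import Mathlib

/-!
# Summability over `ℤ ^ g`
-/

set_option autoImplicit false

namespace Pool.TH

open Finset

/-- the `ℓ¹` norm of an integral vector -/
def N1 {g : ℕ} (n : Fin g → ℤ) : ℝ := ∑ i, |(n i : ℝ)|

theorem N1_nonneg {g : ℕ} (n : Fin g → ℤ) : 0 ≤ N1 n := sum_nonneg (fun _ _ => abs_nonneg _)

theorem summable_exp_abs : Summable (fun n : ℤ => Real.exp (-|(n : ℝ)|)) := by
  have h : Summable (fun n : ℕ => Real.exp (-(n : ℝ))) := by
    have h1 : ∀ n : ℕ, Real.exp (-(n : ℝ)) = (Real.exp (-1)) ^ n := by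
      intro n
      rw [← Real.exp_nat_mul]
      ring_nf
    simp only [h1]
    exact summable_geometric_of_lt_one (Real.exp_pos _).le (by
      rw [Real.exp_lt_one_iff]; norm_num)
  refine Summable.of_nat_of_neg ?_ ?_
  · simpa using h
  · simpa using h

theorem summable_exp_N1 (g : ℕ) : Summable (fun n : Fin g → ℤ => Real.exp (-N1 n)) := by
  induction g with
  | zero => exact Summable.of_finite
  | succ g ih =>
    have h1 : Summable (fun p : ℤ × (Fin g → ℤ) => Real.exp (-|(p.1 : ℝ)|) * Real.exp (-N1 p.2)) :=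
      summable_exp_abs.mul_of_nonneg ih (fun _ => (Real.exp_pos _).le)
        (fun _ => (Real.exp_pos _).le)
    have e := Fin.consEquiv (fun _ : Fin (g + 1) => ℤ)
    rw [← (Fin.consEquiv (fun _ : Fin (g + 1) => ℤ)).summable_iff]
    refine h1.congr ?_
    intro p
    rw [← Real.exp_add]
    simp only [Function.comp, Fin.consEquiv, Equiv.coe_fn_mk, N1, Fin.sum_univ_succ, Fin.cons_zero,
      Fin.cons_succ]
    congr 1
    ring

end Pool.TH
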