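import Pool.Agent.Work.MP_29fd3c_th.Final

/-!
# The uniform theorem
-/

set_option autoImplicit false

namespace Pool.TH

open Finset Complex

variable {g : ℕ}

theorem norm_w (c : Fin g → Fin g → ℂ) (i j : Fin g) : ‖w c i j‖ = Real.exp (2 * (c i j).re) := by
  rw [w, Complex.norm_exp]
  congr 1
  simp

/-- the evaluation point -/
noncomputable def pt (c : Fin g → Fin g → ℂ) (u : Fin g → ℂ) : (Fin g × Fin g) ⊕ Fin g → ℂ :=
  Sum.elim (fun q => w c q.1 q.2) u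

theorem mp_lower {η t ξ : ℝ} (hη : 0 ≤ η) (ht : 1 ≤ t) (hξ : η ≤ ξ)
    {c : Fin g → Fin g → ℂ} {u : Fin g → ℂ}
    (hcb : ∀ i j, |(c i j).re| ≤ Real.pi * (η * t)) {p : Fin g → Fin g}
    (hp : ∀ i, p i ≠ i →
      Real.exp (-(η * t)) * Real.exp (-(2 * Real.pi * (η * t))) ≤ ‖w c i (p i) - 1‖)
    (A : Finset (Fin g)) (hA : ∀ i ∈ A, Real.exp (-(ξ * t)) ≤ ‖u i‖) :
    Real.exp (-((2 * Real.pi * g ^ 2 + g + (1 + 2 * Real.pi) * g) * (ξ * t))) ≤
      ‖MvPolynomial.eval (pt c u) (mp A p)‖ := by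
  classical
  have hπ := Real.pi_pos
  have hg0 : (0 : ℝ) ≤ g := Nat.cast_nonneg _
  have hξ0 : 0 ≤ ξ := hη.trans hξ
  have hηt : η * t ≤ ξ * t := mul_le_mul_of_nonneg_right hξ (by linarith)
  have hηt0 : 0 ≤ η * t := mul_nonneg hη (by linarith)
  have hξt0 : 0 ≤ ξ * t := hηt0.trans hηt
  rw [mp, map_mul, map_mul, map_prod, map_prod, map_prod, norm_mul, norm_mul, norm_prod,
    norm_prod, norm_prod]
  -- products of constants
  have hcard : ∀ (s : Finset (Fin g)), (s.card : ℝ) ≤ g := by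
    intro s
    have := card_le_univ s
    rw [Fintype.card_fin] at this
    exact_mod_cast this
  have e1 : Real.exp (-(2 * Real.pi * g ^ 2 * (ξ * t))) ≤
      ∏ q : Fin g × Fin g, ‖MvPolynomial.eval (pt c u) (MvPolynomial.X (Sum.inl q))‖ := by
    have f1 : ∏ q : Fin g × Fin g, Real.exp (-(2 * Real.pi * (ξ * t))) ≤
        ∏ q : Fin g × Fin g, ‖MvPolynomial.eval (pt c u) (MvPolynomial.X (Sum.inl q))‖ := by
      refine prod_le_prod (fun _ _ => (Real.exp_pos _).le) (fun q _ => ?_)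
      rw [MvPolynomial.eval_X]
      simp only [pt, Sum.elim_inl]
      rw [norm_w, Real.exp_le_exp]
      have f2 := neg_abs_le (c q.1 q.2).re
      have f3 := hcb q.1 q.2
      have f4 := mul_le_mul_of_nonneg_left hηt hπ.le
      linarith
    refine le_trans (le_of_eq ?_) f1
    rw [prod_const, ← Real.exp_nat_mul, card_univ, Fintype.card_prod, Fintype.card_fin]
    congr 1
    push_cast
    ring
  have e2 : Real.exp (-(g * (ξ * t))) ≤
      ∏ i ∈ A, ‖MvPolynomial.eval (pt c u) (MvPolynomial.X (Sum.inr i))‖ := by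
    have f1 : ∏ i ∈ A, Real.exp (-(ξ * t)) ≤
        ∏ i ∈ A, ‖MvPolynomial.eval (pt c u) (MvPolynomial.X (Sum.inr i))‖ := by
      refine prod_le_prod (fun _ _ => (Real.exp_pos _).le) (fun i hi => ?_)
      rw [MvPolynomial.eval_X]
      simp only [pt, Sum.elim_inr]
      exact hA i hi
    refine le_trans ?_ f1
    rw [prod_const, ← Real.exp_nat_mul, Real.exp_le_exp]
    have := mul_le_mul_of_nonneg_right (hcard A) hξt0
    linarith
  have e3 : Real.exp (-((1 + 2 * Real.pi) * g * (ξ * t))) ≤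
      ∏ i ∈ A.filter (fun i => p i < i),
        ‖MvPolynomial.eval (pt c u) (MvPolynomial.X (Sum.inl (i, p i)) - 1)‖ := by
    have f1 : ∏ i ∈ A.filter (fun i => p i < i), Real.exp (-((1 + 2 * Real.pi) * (ξ * t))) ≤
        ∏ i ∈ A.filter (fun i => p i < i),
          ‖MvPolynomial.eval (pt c u) (MvPolynomial.X (Sum.inl (i, p i)) - 1)‖ := by
      refine prod_le_prod (fun _ _ => (Real.exp_pos _).le) (fun i hi => ?_)
      rw [mem_filter] at hi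
      rw [map_sub, MvPolynomial.eval_X, map_one]
      simp only [pt, Sum.elim_inl]
      refine le_trans ?_ (hp i hi.2.ne)
      rw [← Real.exp_add, Real.exp_le_exp]
      have f4 := mul_le_mul_of_nonneg_left hηt (show 0 ≤ 1 + 2 * Real.pi by linarith)
      linarith
    refine le_trans ?_ f1
    rw [prod_const, ← Real.exp_nat_mul, Real.exp_le_exp]
    have := mul_le_mul_of_nonneg_right (hcard (A.filter (fun i => p i < i)))
      (show 0 ≤ (1 + 2 * Real.pi) * (ξ * t) by positivity)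
    linarith
  have e4 : Real.exp (-((2 * Real.pi * g ^ 2 + g + (1 + 2 * Real.pi) * g) * (ξ * t))) =
      Real.exp (-(2 * Real.pi * g ^ 2 * (ξ * t))) * Real.exp (-(g * (ξ * t))) *
        Real.exp (-((1 + 2 * Real.pi) * g * (ξ * t))) := by
    rw [← Real.exp_add, ← Real.exp_add]
    congr 1
    ring
  rw [e4]
  exact mul_le_mul (mul_le_mul e1 e2 (Real.exp_pos _).le (prod_nonneg (fun _ _ => norm_nonneg _)))
    e3 (Real.exp_pos _).le (mul_nonneg (prod_nonneg (fun _ _ => norm_nonneg _))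
      (prod_nonneg (fun _ _ => norm_nonneg _)))

/-- the constants -/
theorem const_exists (g : ℕ) {K4 C0 : ℝ} (h4 : 0 ≤ K4) (h0 : 0 ≤ C0) :
    ∃ ξ0 η : ℝ, 0 < ξ0 ∧ 0 < η ∧ η ≤ ξ0 ∧ 8 * (g + 1) * η ≤ 1 ∧ η * (C0 + 1) ≤ ξ0 ∧ ξ0 ≤ 1 / 8 ∧
      ∀ j : ℕ, j ≤ g → K4 * ((K4 + 1) ^ j * ξ0) ≤ 1 / 8 := by
  have hΛ1 : (1 : ℝ) ≤ K4 + 1 := by linarith
  have hP : (1 : ℝ) ≤ (K4 + 1) ^ g := one_le_pow₀ hΛ1
  have hP0 : (0 : ℝ) < (K4 + 1) ^ g := by linarith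
  have hd : (0 : ℝ) < 8 * (K4 + 1) * (K4 + 1) ^ g := mul_pos (by linarith) hP0
  have hg0 : (0 : ℝ) ≤ g := Nat.cast_nonneg _
  have h8 : (0 : ℝ) < 8 * (g + 1) := by linarith
  set ξ0 : ℝ := 1 / (8 * (K4 + 1) * (K4 + 1) ^ g) with hξ0
  have hξ00 : 0 < ξ0 := one_div_pos.2 hd
  refine ⟨ξ0, min ξ0 (min (1 / (8 * (g + 1))) (ξ0 / (C0 + 1))), hξ00, ?_, min_le_left _ _,
    ?_, ?_, ?_, ?_⟩
  · rw [lt_min_iff, lt_min_iff]
    exact ⟨hξ00, one_div_pos.2 h8, div_pos hξ00 (by linarith)⟩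
  · have h : min ξ0 (min (1 / (8 * (g + 1))) (ξ0 / (C0 + 1))) ≤ 1 / (8 * ((g : ℝ) + 1)) :=
      (min_le_right _ _).trans (min_le_left _ _)
    rw [le_div_iff₀ h8] at h
    linarith
  · have h : min ξ0 (min (1 / (8 * ((g : ℝ) + 1))) (ξ0 / (C0 + 1))) ≤ ξ0 / (C0 + 1) :=
      (min_le_right _ _).trans (min_le_right _ _)
    rwa [le_div_iff₀ (by linarith)] at h
  · rw [hξ0, div_le_div_iff₀ hd (by norm_num)]
    have : 1 ≤ (K4 + 1) * (K4 + 1) ^ g := one_le_mul_of_one_le_of_one_le hΛ1 hP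
    linarith
  · intro j hj
    have h1 : (K4 + 1) ^ j * ξ0 ≤ (K4 + 1) ^ g * ξ0 :=
      mul_le_mul_of_nonneg_right (pow_le_pow_right₀ hΛ1 hj) hξ00.le
    have h2 : (K4 + 1) ^ g * ξ0 = 1 / (8 * (K4 + 1)) := by
      rw [hξ0]
      field_simp
    rw [h2] at h1
    refine (mul_le_mul_of_nonneg_left h1 h4).trans ?_
    rw [mul_one_div, div_le_div_iff₀ (by linarith) (by norm_num)]
    linarith

theorem num_t {g η t : ℝ} (hg : 0 ≤ g) (hη0 : 0 < η) (h8 : 8 * (g + 1) * η ≤ 1)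
    (h1 : 1 ≤ η * t) : 8 ≤ t ∧ 2 * (η * t) * g ≤ (1 / 4) * t := by
  have e1 : 8 * η ≤ 1 := by
    have := mul_nonneg hg hη0.le
    linarith
  have ht0 : 0 < t := by
    by_contra h
    push Not at h
    have := mul_nonpos_of_nonneg_of_nonpos hη0.le h
    linarith
  refine ⟨?_, ?_⟩
  · have := mul_le_mul_of_nonneg_right e1 ht0.le
    linarith
  · have e2 : 8 * g * η ≤ 1 := by linarith
    have := mul_le_mul_of_nonneg_right e2 ht0.le
    linarith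

theorem num_fin {G a SS K1 K2 K3 K4 M D ξ0 η t ξ E P1 P2 : ℝ}
    (hG : 0 ≤ G) (ha : 0 ≤ a) (hSS : 0 ≤ SS) (hK1 : 0 ≤ K1)
    (hD : 0 ≤ D) (hP1 : 0 ≤ P1) (hP2 : 0 ≤ P2) (hK3 : K3 = P1 + P2)
    (hK4 : K4 = K2 * M + K1 * D + K3) (hE : 0 ≤ E)
    (hξ0 : ξ0 ≤ 1 / 8) (ht : 1 ≤ t) (hηξ : η ≤ ξ) (hξξ : ξ0 ≤ ξ)
    (hK4ξ : K4 * ξ ≤ 1 / 8) (hC : a * (G + SS * E) + 1 ≤ ξ0 * t)
    (hmain : Real.exp (-(K2 * M * (ξ * t))) ≤ a * Real.exp (K1 * D * (η * t)) *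
      (G * Real.exp (P1 * (η * t) - (K4 + 1) * ξ * t) +
        SS * (Real.exp (P2 * (η * t) - Real.pi * t / 8) * E))) : False := by
  have ht0 : 0 < t := by linarith
  have hηξt : η * t ≤ ξ * t := mul_le_mul_of_nonneg_right hηξ ht0.le
  have hπ := Real.pi_gt_three
  have hξt0 : ξ0 * t ≤ ξ * t := mul_le_mul_of_nonneg_right hξξ ht0.le
  have f1 : K1 * D * (η * t) ≤ K1 * D * (ξ * t) :=
    mul_le_mul_of_nonneg_left hηξt (mul_nonneg hK1 hD)
  have f2 : P1 * (η * t) ≤ P1 * (ξ * t) := mul_le_mul_of_nonneg_left hηξt hP1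
  have f3 : P2 * (η * t) ≤ P2 * (ξ * t) := mul_le_mul_of_nonneg_left hηξt hP2
  have hξt : 0 ≤ ξ * t := by
    have e1 : 0 ≤ a * (G + SS * E) := mul_nonneg ha (add_nonneg hG (mul_nonneg hSS hE))
    linarith
  have f4 : 0 ≤ P1 * (ξ * t) := mul_nonneg hP1 hξt
  have f5 : 0 ≤ P2 * (ξ * t) := mul_nonneg hP2 hξt
  have f6 : K4 * (ξ * t) = K2 * M * (ξ * t) + K1 * D * (ξ * t) +
      (P1 * (ξ * t) + P2 * (ξ * t)) := by
    rw [hK4, hK3]; ring
  have f7 : (K4 + 1) * ξ * t = K4 * (ξ * t) + ξ * t := by ring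
  have f8 : K4 * (ξ * t) ≤ t / 8 := by
    have := mul_le_mul_of_nonneg_right hK4ξ ht0.le
    linarith
  have g1 : K2 * M * (ξ * t) + K1 * D * (η * t) + (P1 * (η * t) - (K4 + 1) * ξ * t) ≤
      -(ξ0 * t) := by
    linarith
  have g2 : K2 * M * (ξ * t) + K1 * D * (η * t) + (P2 * (η * t) - Real.pi * t / 8) ≤
      -(ξ0 * t) := by
    have f10 : ξ0 * t ≤ t / 8 := by
      have := mul_le_mul_of_nonneg_right hξ0 ht0.le
      linarith
    have f11 : 3 * t / 8 ≤ Real.pi * t / 8 := by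
      have := mul_le_mul_of_nonneg_right hπ.le ht0.le
      linarith
    linarith
  have g3 := Real.exp_le_exp.2 g1
  have g4 := Real.exp_le_exp.2 g2
  have hfin : 1 ≤ a * (G + SS * E) * Real.exp (-(ξ0 * t)) := by
    have e1 : 1 = Real.exp (K2 * M * (ξ * t)) * Real.exp (-(K2 * M * (ξ * t))) := by
      rw [← Real.exp_add]; simp
    have e2 := mul_le_mul_of_nonneg_left hmain (Real.exp_pos (K2 * M * (ξ * t))).le
    rw [← e1] at e2
    refine e2.trans ?_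
    have e3 : Real.exp (K2 * M * (ξ * t)) * (a * Real.exp (K1 * D * (η * t)) *
      (G * Real.exp (P1 * (η * t) - (K4 + 1) * ξ * t) +
        SS * (Real.exp (P2 * (η * t) - Real.pi * t / 8) * E))) =
        a * (G * Real.exp (K2 * M * (ξ * t) + K1 * D * (η * t) +
            (P1 * (η * t) - (K4 + 1) * ξ * t)) +
          SS * E * Real.exp (K2 * M * (ξ * t) + K1 * D * (η * t) +
          (P2 * (η * t) - Real.pi * t / 8))) := by
      rw [Real.exp_add (K2 * M * (ξ * t) + K1 * D * (η * t)),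
        Real.exp_add (K2 * M * (ξ * t) + K1 * D * (η * t)), Real.exp_add (K2 * M * (ξ * t))]
      ring
    rw [e3, mul_assoc a]
    refine mul_le_mul_of_nonneg_left ?_ ha
    refine (add_le_add (mul_le_mul_of_nonneg_left g3 hG)
      (mul_le_mul_of_nonneg_left g4 (mul_nonneg hSS hE))).trans (le_of_eq ?_)
    ring
  have h4 : ξ0 * t + 1 ≤ Real.exp (ξ0 * t) := Real.add_one_le_exp _
  have h5 : Real.exp (ξ0 * t) ≤ a * (G + SS * E) := by
    have e1 : Real.exp (ξ0 * t) * Real.exp (-(ξ0 * t)) = 1 := by rw [← Real.exp_add]; simp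
    have e2 := mul_le_mul_of_nonneg_left hfin (Real.exp_pos (ξ0 * t)).le
    calc Real.exp (ξ0 * t) = Real.exp (ξ0 * t) * 1 := (mul_one _).symm
      _ ≤ Real.exp (ξ0 * t) * (a * (G + SS * E) * Real.exp (-(ξ0 * t))) := e2
      _ = a * (G + SS * E) * (Real.exp (ξ0 * t) * Real.exp (-(ξ0 * t))) := by ring
      _ = a * (G + SS * E) := by rw [e1, mul_one]
  linarith

/-- separation of scales for the sizes of the `u i` -/
theorem scale_sep {t Λ ξ0 : ℝ} (ht0 : 0 < t) (hΛ1 : 1 ≤ Λ) (hξ00 : 0 < ξ0)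
    {u : Fin g → ℂ} (hu0 : ∀ i, u i ≠ 0) :
    ∃ j : ℕ, j ≤ g ∧ ∀ i, Real.exp (-(Λ ^ j * ξ0 * t)) ≤ ‖u i‖ ∨
      ‖u i‖ ≤ Real.exp (-(Λ * (Λ ^ j * ξ0) * t)) := by
  obtain ⟨j, hj, hsep⟩ := pigeon (fun i => -Real.log ‖u i‖ / t) (fun j => Λ ^ j * ξ0) (by
    intro j k hjk
    exact mul_le_mul_of_nonneg_right (pow_le_pow_right₀ hΛ1 hjk) hξ00.le)
  refine ⟨j, hj, fun i => ?_⟩
  have hupos : 0 < ‖u i‖ := norm_pos_iff.2 (hu0 i)
  rcases hsep i with h3 | h3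
  · left
    rw [div_le_iff₀ ht0] at h3
    calc Real.exp (-(Λ ^ j * ξ0 * t)) ≤ Real.exp (Real.log ‖u i‖) :=
          Real.exp_le_exp.2 (by linarith)
      _ = ‖u i‖ := Real.exp_log hupos
  · right
    rw [lt_div_iff₀ ht0] at h3
    have h4 : Λ ^ (j + 1) * ξ0 = Λ * (Λ ^ j * ξ0) := by rw [pow_succ]; ring
    rw [h4] at h3
    calc ‖u i‖ = Real.exp (Real.log ‖u i‖) := (Real.exp_log hupos).symm
      _ ≤ _ := Real.exp_le_exp.2 (by linarith)

/-- the number of derivatives -/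
theorem count_derivs {p : Fin g → Fin g} (hp : ∀ i, p (p i) = i) (A T : Finset (Fin g))
    (h3 : 2 * T.card ≤ A.card + ex p A) :
    T.card ≤ (g + fixed p) / 2 := by
  classical
  have h1 : ex p A ≤ fixed p + (univ \ A).card := by
    rw [ex, fixed]
    have h3 : A.filter (fun i => p i = i ∨ p i ∉ A) ⊆
        (univ.filter (fun i => p i = i)) ∪ (univ \ A).image p := by
      intro i hi
      rw [mem_filter] at hi
      rw [mem_union, mem_filter, mem_image]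
      rcases hi.2 with h | h
      · exact Or.inl ⟨mem_univ _, h⟩
      · right
        exact ⟨p i, mem_sdiff.2 ⟨mem_univ _, h⟩, hp i⟩
    refine (card_le_card h3).trans ((card_union_le _ _).trans ?_)
    exact Nat.add_le_add_left card_image_le _
  have h2 : (univ \ A).card + A.card = g := by
    rw [card_sdiff_of_subset (subset_univ _), card_univ, Fintype.card_fin]
    have := card_le_univ A
    rw [Fintype.card_fin] at this
    omega
  rw [Nat.le_div_iff_mul_le two_pos]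
  omega

theorem pt_bound {η t : ℝ} (hηt : 0 ≤ η * t) {c : Fin g → Fin g → ℂ} {u : Fin g → ℂ}
    (hcb : ∀ i j, |(c i j).re| ≤ Real.pi * (η * t))
    (hub : ∀ i, ‖u i‖ ≤ Real.exp (2 * Real.pi * g ^ 2 * (η * t))) (i : (Fin g × Fin g) ⊕ Fin g) :
    ‖pt c u i‖ ≤ Real.exp ((2 * Real.pi * g ^ 2 + 2 * Real.pi) * (η * t)) := by
  have hπ0 := Real.pi_pos
  have h2 : 0 ≤ 2 * Real.pi * g ^ 2 * (η * t) := by positivity
  have h3 : 0 ≤ 2 * Real.pi * (η * t) := by positivity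
  rcases i with ⟨i, j⟩ | i
  · simp only [pt, Sum.elim_inl]
    rw [norm_w, Real.exp_le_exp]
    have h1 := (le_abs_self _).trans (hcb i j)
    linarith
  · simp only [pt, Sum.elim_inr]
    refine (hub i).trans ?_
    rw [Real.exp_le_exp]
    linarith

/-- the uniform theorem -/
theorem uniform (g : ℕ) : ∃ η : ℝ, 0 < η ∧ ∀ τ : Matrix (Fin g) (Fin g) ℂ, τ.transpose = τ →
    (τ.map Complex.im).PosDef → ∀ t : ℝ, 1 / η ≤ t → (∀ i, t ≤ (τ i i).im) →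
    (∀ i j, i ≠ j → |(τ i j).im| ≤ η * t) →
    ∀ p : Fin g → Fin g, (∀ i, p (p i) = i) →
    (∀ i, p i ≠ i →
      Real.exp (-(η * t)) ≤ ‖Complex.exp (2 * Real.pi * Complex.I * τ i (p i)) - 1‖) →
    ∀ z : Fin g → ℂ, ∃ m : ℕ, 2 * m ≤ g + fixed p ∧ iteratedFDeriv ℂ m (theta τ) z ≠ 0 := by
  classical
  obtain ⟨a, M, D, ha, hq⟩ := quant_unif g
  have hπ0 := Real.pi_pos
  have hg0 : (0 : ℝ) ≤ g := Nat.cast_nonneg _
  -- constants
  obtain ⟨K1, hK1⟩ : ∃ K1 : ℝ, K1 = 2 * Real.pi * g ^ 2 + 2 * Real.pi := ⟨_, rfl⟩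
  obtain ⟨K2, hK2⟩ : ∃ K2 : ℝ, K2 = 2 * Real.pi * g ^ 2 + g + (1 + 2 * Real.pi) * g := ⟨_, rfl⟩
  obtain ⟨P1, hP1⟩ : ∃ P1 : ℝ, P1 = Real.pi * g ^ 2 + 2 * Real.pi * g ^ 3 := ⟨_, rfl⟩
  obtain ⟨P2, hP2⟩ : ∃ P2 : ℝ, P2 = 2 * Real.pi * g ^ 2 := ⟨_, rfl⟩
  obtain ⟨K4, hK4⟩ : ∃ K4 : ℝ, K4 = K2 * M + K1 * D + (P1 + P2) := ⟨_, rfl⟩
  obtain ⟨SS, hSS⟩ : ∃ SS : ℝ, SS = ∑' n : Fin g → ℤ, Real.exp (-N1 n) := ⟨_, rfl⟩
  have hK10 : 0 ≤ K1 := by rw [hK1]; positivity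
  have hK20 : 0 ≤ K2 := by rw [hK2]; positivity
  have hP10 : 0 ≤ P1 := by rw [hP1]; positivity
  have hP20 : 0 ≤ P2 := by rw [hP2]; positivity
  have hM0 : (0 : ℝ) ≤ M := Nat.cast_nonneg _
  have hD0 : (0 : ℝ) ≤ D := Nat.cast_nonneg _
  have hK40 : 0 ≤ K4 := by
    rw [hK4]
    exact add_nonneg (add_nonneg (mul_nonneg hK20 hM0) (mul_nonneg hK10 hD0))
      (add_nonneg hP10 hP20)
  have hSS0 : 0 ≤ SS := by rw [hSS]; exact tsum_nonneg (fun _ => (Real.exp_pos _).le)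
  have hE0 : (0 : ℝ) ≤ (Real.exp 3) ^ g := (pow_pos (Real.exp_pos _) _).le
  have hG0 : (0 : ℝ) ≤ 2 ^ g := (pow_pos two_pos _).le
  have hC00 : 0 ≤ a * (2 ^ g + SS * (Real.exp 3) ^ g) :=
    mul_nonneg ha (add_nonneg hG0 (mul_nonneg hSS0 hE0))
  obtain ⟨ξ0, η, hξ00, hη0, hη1, hη8, hη3, hξ8, hξj⟩ := const_exists g hK40 hC00
  refine ⟨η, hη0, ?_⟩
  intro τ hτ hpos t ht hdiag hoff p hp hw z
  by_contra hcon
  push Not at hcon
  have hηt1 : 1 ≤ η * t := by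
    rw [div_le_iff₀ hη0] at ht
    rwa [mul_comm] at ht
  obtain ⟨ht8, ht4⟩ := num_t hg0 hη0 hη8 hηt1
  have ht1 : 1 ≤ t := le_trans (by norm_num) ht8
  have ht0 : 0 < t := lt_of_lt_of_le one_pos ht1
  have hηt0 : 0 ≤ η * t := le_trans zero_le_one hηt1
  have hD : Dom τ z := dom_of_large (C := η * t) hηt0 hoff hdiag (by
    exact lt_of_le_of_lt ht4 (by
      have := ht0
      clear * - this
      linarith)) z
  obtain ⟨c, u, G, hsym, hcb, hub, hu0, hcw, hval, hG, hvan⟩ :=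
    normal2 hτ hpos (C := η * t) (T := t) (δ := Real.exp (-(η * t))) hηt0 ht0.le
      (Real.exp_pos _).le hoff hdiag hw z (N := (g + fixed p) / 2) (by
        intro S hS α β
        exact der hD (m := (g + fixed p) / 2) (fun m hm => hcon m (by omega)) S hS α β)
  -- the scale
  have hΛ1 : 1 ≤ K4 + 1 := le_add_of_nonneg_left hK40
  obtain ⟨j, hj, hsep⟩ := scale_sep ht0 hΛ1 hξ00 hu0
  have hξj' := hξj j hj
  obtain ⟨ξ, hξ⟩ : ∃ ξ : ℝ, ξ = (K4 + 1) ^ j * ξ0 := ⟨_, rfl⟩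
  rw [← hξ] at hξj' hsep
  have hξξ0 : ξ0 ≤ ξ := by
    rw [hξ]
    exact le_mul_of_one_le_left hξ00.le (one_le_pow₀ hΛ1)
  have hηξ : η ≤ ξ := hη1.trans hξξ0
  obtain ⟨A, hA⟩ : ∃ A : Finset (Fin g),
      A = univ.filter (fun i => Real.exp (-(ξ * t)) ≤ ‖u i‖) := ⟨_, rfl⟩
  have hA1 : ∀ i ∈ A, Real.exp (-(ξ * t)) ≤ ‖u i‖ := fun i hi => by
    rw [hA] at hi
    exact (mem_filter.1 hi).2
  have hA2 : ∀ i, i ∉ A → ‖u i‖ ≤ Real.exp (-((K4 + 1) * ξ * t)) := by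
    intro i hi
    rcases hsep i with h3 | h3
    · exact absurd (by rw [hA]; exact mem_filter.2 ⟨mem_univ _, h3⟩) hi
    · exact h3
  have hub' : ∀ i, ‖u i‖ ≤ Real.exp (2 * Real.pi * g ^ 2 * (η * t)) := fun i => by
    refine (hub i).trans (le_of_eq ?_)
    congr 1
    ring
  have hlow := mp_lower hη0.le ht1 hηξ hcb hcw A hA1
  rw [← hK2] at hlow
  have hl1 : Real.exp (-(K2 * (ξ * t))) ≤ 1 := by
    rw [Real.exp_le_one_iff]
    exact neg_nonpos_of_nonneg (mul_nonneg hK20 (mul_nonneg (hξ00.le.trans hξξ0) ht0.le))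
  have hB1 : 1 ≤ Real.exp (K1 * (η * t)) := by
    rw [Real.one_le_exp_iff]
    exact mul_nonneg hK10 hηt0
  have hptB : ∀ i, ‖pt c u i‖ ≤ Real.exp (K1 * (η * t)) := fun i => by
    rw [hK1]
    exact pt_bound hηt0 hcb hub' i
  have hmain := hq p hp A (pt c u) (Real.exp (K1 * (η * t)))
    (2 ^ g * Real.exp (P1 * (η * t) - (K4 + 1) * ξ * t) +
        SS * (Real.exp (P2 * (η * t) - Real.pi * t / 8) * (Real.exp 3) ^ g))
    (Real.exp (-(K2 * (ξ * t)))) hB1 hptB (Real.exp_pos _).le hl1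
    (add_nonneg (mul_nonneg hG0 (Real.exp_pos _).le)
      (mul_nonneg hSS0 (mul_nonneg (Real.exp_pos _).le hE0))) (by
      rintro ⟨T, S⟩ ⟨hTA, hST, hTc⟩
      rw [eval_Jp hsym u (pt c u) A T S (fun i _ j _ _ => rfl) (fun i _ => rfl), hP1, hP2, hSS]
      exact jet_small hη0.le hη8 ht1 hsym hcb hub hval hG (N := (g + fixed p) / 2) hvan A hA2
        T S hTA hST (count_derivs hp A T hTc)) hlow
  have h1 : Real.exp (-(K2 * (ξ * t))) ^ M = Real.exp (-(K2 * M * (ξ * t))) := by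
    rw [← Real.exp_nat_mul]
    congr 1
    ring
  have h2 : Real.exp (K1 * (η * t)) ^ D = Real.exp (K1 * D * (η * t)) := by
    rw [← Real.exp_nat_mul]
    congr 1
    ring
  rw [h1, h2] at hmain
  have hCC : a * (2 ^ g + SS * (Real.exp 3) ^ g) + 1 ≤ ξ0 * t := by
    refine le_trans ?_ (mul_le_mul_of_nonneg_right hη3 ht0.le)
    have e1 := mul_le_mul_of_nonneg_right hηt1 (add_nonneg hC00 zero_le_one)
    refine le_trans (le_of_eq (one_mul _).symm) (e1.trans (le_of_eq ?_))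
    ring
  exact num_fin (K3 := P1 + P2) hG0 ha hSS0 hK10 hD0 hP10 hP20 rfl hK4 hE0 hξ8 ht1 hηξ
    hξξ0 hξj' hCC hmain

end Pool.TH
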